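import Pool.Agent.Helper78.CG.B4
import Pool.Agent.Helper92.DT.R2

/-!
# CG-B5: from thin slabs to the region, exponent 12
-/

open MeasureTheory Real Set Filter Topology

set_option autoImplicit false

namespace Pool.Agent.Helper78.CG

open Pool.Agent.Helper22.AE
open Pool.Agent.Helper92.GC
open Pool.Agent.Helper92.DT
open Pool.Agent.Helper22.AC (IsWt sep)
open Pool.Agent.Helper78.CD (n12 Bas Sys3)
open Pool.Agent.Helper78.CE (mem_arc' hs mu2 hs_cont hs_norm_le hs_split orth_hs mu2_prob)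

private theorem b5_prob {X : ℝ} {v : ℝ → ℝ} (hv : IsWt X v) :
    IsProbabilityMeasure ((volume : Measure ℝ).withDensity fun R => ENNReal.ofReal (v R)) := by
  have hint : Integrable v := by
    by_contra hcon
    have h2 := hv.int_one
    rw [integral_undef hcon] at h2
    exact zero_ne_one h2
  constructor
  rw [withDensity_apply _ MeasurableSet.univ, Measure.restrict_univ,
    ← ofReal_integral_eq_lintegral_ofReal hint (Eventually.of_forall hv.nonneg), hv.int_one,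
    ENNReal.ofReal_one]

theorem hs_slice (S : Finset (ℤ × ℤ)) (a : ℤ × ℤ → ℂ) (f g : ℤ × ℤ → ℝ) (c : ℝ × ℝ) (r : ℝ × ℝ) :
    hs S a f g (c, r) = tp S (fun k => a k * ee (r.1 * f k + r.2 * g k)) c := by
  unfold hs tp
  refine Finset.sum_congr rfl fun k _ => ?_
  change a k * ee (dt k c + r.1 * f k + r.2 * g k) = _
  rw [add_assoc, ee_add]
  ring

private theorem b5_slice {X X' : ℝ} {v w : ℝ → ℝ} (hv : IsWt X v) (hw : IsWt X' w) (S : Finset (ℤ × ℤ)) (a : ℤ × ℤ → ℂ)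
    (f g : ℤ × ℤ → ℝ) :
    ∫ q, ‖hs S a f g q‖ ^ 12 ∂(mu2 v w) = ∫ r : ℝ × ℝ, m12 S (fun k => a k * ee (r.1 * f k + r.2 * g k))
      ∂(((volume : Measure ℝ).withDensity fun R => ENNReal.ofReal (v R)).prod (volume.withDensity fun Z => ENNReal.ofReal (w Z))) ∧
    Integrable (fun r : ℝ × ℝ => m12 S (fun k => a k * ee (r.1 * f k + r.2 * g k)))
      (((volume : Measure ℝ).withDensity fun R => ENNReal.ofReal (v R)).prod (volume.withDensity fun Z => ENNReal.ofReal (w Z))) := by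
  have hp1 := b5_prob hv
  have hp2 := b5_prob hw
  have hpr := mu2_prob hv hw
  have hint : Integrable (fun q => ‖hs S a f g q‖ ^ 12) (mu2 v w) := by
    refine Integrable.of_bound (C := (∑ k ∈ S, ‖a k‖) ^ 12) ((hs_cont S a f g).norm.pow 12).aestronglyMeasurable
      (Eventually.of_forall fun q => ?_)
    rw [Real.norm_of_nonneg (by positivity)]
    exact pow_le_pow_left₀ (norm_nonneg _) (hs_norm_le S a f g q) 12
  have e : (fun r : ℝ × ℝ => m12 S (fun k => a k * ee (r.1 * f k + r.2 * g k))) = fun r =>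
      ∫ c, ‖hs S a f g (c, r)‖ ^ 12 ∂(volume.restrict Tq) := by
    funext r
    unfold m12
    refine integral_congr_ae (Eventually.of_forall fun c => ?_)
    simp only
    rw [hs_slice]
  rw [e]
  unfold mu2 at hint ⊢
  exact ⟨integral_prod_symm _ hint, hint.integral_prod_right⟩

theorem n12_le_of_m12 {X X' : ℝ} {v w : ℝ → ℝ} (hv : IsWt X v) (hw : IsWt X' w) {S S' : Finset (ℤ × ℤ)} {a a' : ℤ × ℤ → ℂ}
    {f g : ℤ × ℤ → ℝ} {C : ℝ} (hC : 0 ≤ C)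
    (h : ∀ R Z : ℝ, m12 S (fun k => a k * ee (R * f k + Z * g k)) ≤ C ^ 12 * m12 S' (fun k => a' k * ee (R * f k + Z * g k))) :
    n12 (mu2 v w) (hs S a f g) ≤ C ^ 2 * n12 (mu2 v w) (hs S' a' f g) := by
  obtain ⟨h1, h2⟩ := b5_slice hv hw S a f g
  obtain ⟨h3, h4⟩ := b5_slice hv hw S' a' f g
  have h5 : ∫ q, ‖hs S a f g q‖ ^ 12 ∂(mu2 v w) ≤ C ^ 12 * ∫ q, ‖hs S' a' f g q‖ ^ 12 ∂(mu2 v w) := by
    rw [h1, h3, ← integral_const_mul]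
    exact integral_mono h2 (h4.const_mul _) fun r => h r.1 r.2
  have h6 : 0 ≤ ∫ q, ‖hs S a f g q‖ ^ 12 ∂(mu2 v w) := integral_nonneg fun _ => by positivity
  have h7 : 0 ≤ ∫ q, ‖hs S' a' f g q‖ ^ 12 ∂(mu2 v w) := integral_nonneg fun _ => by positivity
  unfold n12
  have h8 := rpow_le_rpow h6 h5 (by norm_num : (0 : ℝ) ≤ 1 / 6)
  rw [mul_rpow (by positivity) h7] at h8
  have h9 : (C ^ 12) ^ (1 / 6 : ℝ) = C ^ 2 := by
    rw [← rpow_natCast, ← rpow_natCast, ← rpow_mul hC]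
    norm_num
  rwa [h9] at h8

open Classical in
/-- the slab number `l` -/
noncomputable def sbl (β H L : ℝ) (S : Finset (ℤ × ℤ)) (l : ℕ) : Finset (ℤ × ℤ) :=
  S.filter (fun k => ⌊uu β k * L / H⌋₊ = l)

theorem sbl_iff {β H L : ℝ} (hH : 0 < H) (hL : 0 < L) {k : ℤ × ℤ} (hk : 0 ≤ uu β k) (l : ℕ) :
    ⌊uu β k * L / H⌋₊ = l ↔ H * l / L ≤ uu β k ∧ uu β k < H * (l + 1) / L := by
  rw [Nat.floor_eq_iff (by positivity), le_div_iff₀ hH, div_lt_iff₀ hH, div_le_iff₀ hL, lt_div_iff₀ hL]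
  constructor
  · rintro ⟨h1, h2⟩
    exact ⟨by linarith, by linarith⟩
  · rintro ⟨h1, h2⟩
    exact ⟨by linarith, by linarith⟩

open Classical in
private lemma sbl_mul {β H L : ℝ} (hH : 0 < H) (hL : 0 < L) {S : Finset (ℤ × ℤ)} (hS : ∀ k ∈ S, 0 ≤ uu β k)
    (l : ℕ) (A : ℤ × ℤ → ℂ) : m12 (sbl β H L S l) A ≤ (24 * 24 : ℝ) ^ 12 * m12 S A := by
  have h1 := mul12_comp (cut12_u S β (H * l / L)) (mul12_half_lt S (-1) (-β) (-(H * (l + 1) / L)))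
  have h2 : IsMul12 S (fun k => if ⌊uu β k * L / H⌋₊ = l then 1 else 0) (24 * 24) := by
    refine mul12_congr (fun k hk => ?_) h1
    have h3 := sbl_iff hH hL (hS k hk) l
    have h4 : -(H * (l + 1) / L) < (-1) * (k.1 : ℝ) + (-β) * (k.2 : ℝ) ↔ uu β k < H * (l + 1) / L := by
      unfold uu
      constructor <;> intro h <;> linarith
    by_cases h5 : H * l / L ≤ uu β k
    · by_cases h6 : uu β k < H * (l + 1) / L
      · rw [if_pos h5, if_pos (h4.2 h6), if_pos (h3.2 ⟨h5, h6⟩), one_mul]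
      · rw [if_neg (fun h => h6 (h4.1 h)), if_neg (fun h => h6 (h3.1 h).2), mul_zero]
    · rw [if_neg h5, if_neg (fun h => h5 (h3.1 h).1), zero_mul]
  refine le_trans (le_of_eq ?_) (h2.2 A)
  have h6 := m12_filter S (fun k => ⌊uu β k * L / H⌋₊ = l) A
  unfold sbl
  convert h6

open Classical in
private lemma sbl_arc (β H L : ℝ) (S : Finset (ℤ × ℤ)) (N r l : ℕ) :
    arc β (sbl β H L S l) N r = sbl β H L (arc β S N r) l := by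
  unfold arc sbl
  rw [Finset.filter_filter, Finset.filter_filter]
  refine Finset.filter_congr fun k _ => ?_
  exact and_comm

private lemma b5_nonneg {v w : ℝ → ℝ} (f : (ℝ × ℝ) × (ℝ × ℝ) → ℂ) : 0 ≤ n12 (mu2 v w) f :=
  rpow_nonneg (integral_nonneg fun _ => by positivity) _

private lemma b5_main {lam ρ D : ℝ} {M Λ E P : ℕ} (hlam : 1 ≤ lam) (hΛ : lam < Λ) (hM : 1 ≤ M) {β H X₁ X₂ : ℝ} {v w : ℝ → ℝ}
    {f g : ℝ → ℝ} {a : ℤ × ℤ → ℂ} {S : Finset (ℤ × ℤ)} (hH : 0 < H) (hS : Rg β H lam ρ S) (hv : IsWt X₁ v) (hw : IsWt X₂ w) (hD : 0 ≤ D)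
    (hslab : ∀ B : Finset (ℤ × ℤ), B ⊆ S → (∀ k ∈ B, ∀ k' ∈ B, |uu β k - uu β k'| ≤ (1 / (M : ℝ)) ^ E * H) →
      n12 (mu2 v w) (hs B a (ff β f) (ff β g)) ≤ D * ∑ r ∈ Finset.range P, n12 (mu2 v w) (hs (arc β B P r) a (ff β f) (ff β g))) :
    n12 (mu2 v w) (hs S a (ff β f) (ff β g)) ≤ (Λ * (M : ℝ) ^ E) ^ (11 / 6 : ℝ) * ((Λ * (M : ℝ) ^ E) *
      (D * ((24 * 24 : ℝ) ^ 2 * ∑ r ∈ Finset.range P, n12 (mu2 v w) (hs (arc β S P r) a (ff β f) (ff β g))))) := by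
  classical
  have hM0 : (0 : ℝ) < M := by exact_mod_cast hM
  have hL0 : (0 : ℝ) < (M : ℝ) ^ E := by positivity
  have hlam0 : 0 < lam := by linarith
  have hprob := mu2_prob hv hw
  have hpos : ∀ k ∈ S, 0 < uu β k := fun k hk => lt_of_lt_of_le (by positivity) (hS k hk).1
  have hfl : ∀ k ∈ S, ⌊uu β k * (M : ℝ) ^ E / H⌋₊ ∈ Finset.range (Λ * M ^ E) := by
    intro k hk
    have hΛ0 : 0 < Λ := by
      have : (0 : ℝ) < Λ := by linarith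
      exact_mod_cast this
    rw [Finset.mem_range, Nat.floor_lt' (Nat.mul_ne_zero hΛ0.ne' (pow_pos hM _).ne')]
    rw [div_lt_iff₀ hH]
    push_cast
    have h1 := (hS k hk).2.1
    have h2 : uu β k * (M : ℝ) ^ E ≤ lam * H * (M : ℝ) ^ E := mul_le_mul_of_nonneg_right h1 hL0.le
    have h3 : lam * H * (M : ℝ) ^ E < Λ * (M : ℝ) ^ E * H := by
      have : lam * (H * (M : ℝ) ^ E) < Λ * (H * (M : ℝ) ^ E) := mul_lt_mul_of_pos_right hΛ (by positivity)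
      linarith
    linarith
  have hsum : hs S a (ff β f) (ff β g) = fun q => ∑ l ∈ Finset.range (Λ * M ^ E),
      hs (sbl β H ((M : ℝ) ^ E) S l) a (ff β f) (ff β g) q := by
    funext q
    unfold hs sbl
    exact (Finset.sum_fiberwise_of_maps_to hfl _).symm
  rw [hsum]
  refine (Pool.Agent.Helper78.CD.n12_sum_le (mu2 v w) (Λ * M ^ E)
    (fun l => hs (sbl β H ((M : ℝ) ^ E) S l) a (ff β f) (ff β g))
    (fun l => (hs_cont _ _ _ _).measurable) (fun l => ⟨_, hs_norm_le _ _ _ _⟩)).trans ?_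
  have hcast : ((Λ * M ^ E : ℕ) : ℝ) = Λ * (M : ℝ) ^ E := by push_cast; rfl
  rw [hcast]
  apply mul_le_mul_of_nonneg_left _ (by positivity)
  have hterm : ∀ l ∈ Finset.range (Λ * M ^ E),
      n12 (mu2 v w) (hs (sbl β H ((M : ℝ) ^ E) S l) a (ff β f) (ff β g)) ≤
      D * ((24 * 24 : ℝ) ^ 2 * ∑ r ∈ Finset.range P, n12 (mu2 v w) (hs (arc β S P r) a (ff β f) (ff β g))) := by
    intro l _
    have hsub : sbl β H ((M : ℝ) ^ E) S l ⊆ S := Finset.filter_subset _ _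
    refine (hslab _ hsub ?_).trans ?_
    · intro k hk k' hk'
      unfold sbl at hk hk'
      rw [Finset.mem_filter] at hk hk'
      have h1 := (sbl_iff hH hL0 (hpos k hk.1).le l).1 hk.2
      have h2 := (sbl_iff hH hL0 (hpos k' hk'.1).le l).1 hk'.2
      have h3 : (1 / (M : ℝ)) ^ E * H = H * (l + 1) / (M : ℝ) ^ E - H * l / (M : ℝ) ^ E := by
        rw [one_div, inv_pow]
        field_simp
        ring
      rw [h3, abs_le]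
      constructor <;> linarith [h1.1, h1.2, h2.1, h2.2]
    · apply mul_le_mul_of_nonneg_left _ hD
      rw [Finset.mul_sum]
      refine Finset.sum_le_sum fun r _ => ?_
      rw [sbl_arc]
      refine n12_le_of_m12 hv hw (by norm_num) fun R Z => ?_
      apply sbl_mul hH hL0
      intro k hk
      exact (hpos k (mem_arc'.1 hk).1).le
  refine (Finset.sum_le_sum hterm).trans ?_
  rw [Finset.sum_const, Finset.card_range, nsmul_eq_mul, hcast]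

theorem dec12' {ε c C₀ lam : ℝ} (hε : 0 < ε) (hc : 0 < c) (hl : 1 ≤ lam) : ∃ M : ℕ, 2 ≤ M ∧ ∃ C : ℝ, 1 ≤ C ∧
    ∀ (m : ℕ) (b H ρ X₁ X₂ : ℝ) (f g r v w : ℝ → ℝ) (a : ℤ × ℤ → ℂ) (S : Finset (ℤ × ℤ)), 0 < H → 0 < X₁ → 0 < X₂ → 0 < ρ → ρ ≤ 5 →
      (∀ k ∈ S, H / lam ≤ uu b k ∧ uu b k ≤ lam * H ∧ |tt b k| ≤ ρ) → Crv c C₀ ρ f g r → IsWt X₁ v → IsWt X₂ w →
      C * (1 / X₂ + ρ / X₁) ≤ H * (1 / (M : ℝ) ^ m) ^ 3 →
      n12 (mu2 v w) (hs S a (ff b f) (ff b g)) ≤ C * (M : ℝ) ^ (ε * (m : ℝ)) *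
        ∑ r ∈ Finset.range (M ^ m), n12 (mu2 v w) (hs (arc b S (M ^ m) r) a (ff b f) (ff b g)) := by
  rcases lt_or_ge 0 C₀ with hC₀ | hC₀
  swap
  · refine ⟨2, le_rfl, 1, le_rfl, ?_⟩
    intro m b H ρ X₁ X₂ f g r v w a S hH hX₁ hX₂ hρ hρ5 hS hcrv hv hw hX
    exfalso
    obtain ⟨f1, g1, φ, hd⟩ := hcrv.ex
    obtain ⟨-, -, -, -, h1, h2⟩ := hd 0 (by simpa using hρ.le)
    linarith
  obtain ⟨M₀, hM₀, C₁, hC₁, hsl⟩ := slab_g (ε := ε / 2) (c := c) (C₀ := C₀) (lam := lam) (by positivity) hc hl hC₀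
  obtain ⟨N₁, hN₁⟩ : ∃ N₁ : ℕ, N₁ = ⌈17 / ε⌉₊ + 1 := ⟨_, rfl⟩
  have hN1 : 1 ≤ N₁ := by omega
  have hN2 : 17 / ε ≤ N₁ := by
    rw [hN₁]
    push_cast
    have := Nat.le_ceil (17 / ε)
    linarith
  have hN3 : 17 ≤ N₁ * ε := by rwa [div_le_iff₀ hε] at hN2
  obtain ⟨Λ, hΛ⟩ : ∃ Λ : ℕ, Λ = ⌈lam⌉₊ + 1 := ⟨_, rfl⟩
  have hΛ1 : lam < Λ := by
    rw [hΛ]
    push_cast
    have := Nat.le_ceil lam
    linarith
  have hM₀r : (2 : ℝ) ≤ M₀ := by exact_mod_cast hM₀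
  have hM₀0 : (0 : ℝ) < M₀ := by linarith
  have hΛ0 : (0 : ℝ) < Λ := by linarith
  obtain ⟨K, hK⟩ : ∃ K : ℝ, K = (Λ : ℝ) ^ (17 / 6 : ℝ) * (M₀ : ℝ) ^ (17 / 2 : ℝ) * (C₁ ^ N₁ * (24 * 24) ^ 2) := ⟨_, rfl⟩
  have hK0 : 0 ≤ K := by rw [hK]; positivity
  refine ⟨M₀ ^ N₁, ?_, K + C₀ + 1, by linarith, ?_⟩
  · calc 2 ≤ M₀ := hM₀
      _ = M₀ ^ 1 := (pow_one _).symm
      _ ≤ M₀ ^ N₁ := Nat.pow_le_pow_right (by omega) hN1
  intro m b H ρ X₁ X₂ f g r v w a S hH hX₁ hX₂ hρ hρ5 hS hcrv hv hw hX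
  have hpm : (M₀ ^ N₁) ^ m = M₀ ^ (N₁ * m) := by rw [← pow_mul]
  have hX' : 1 / X₂ + C₀ * ρ / X₁ ≤ H * (12 / (M₀ : ℝ) ^ (N₁ * m)) ^ 3 := by
    have h1 : 1 / X₂ + C₀ * ρ / X₁ ≤ (K + C₀ + 1) * (1 / X₂ + ρ / X₁) := by
      have h2 : 0 < 1 / X₂ := by positivity
      have h3 : 0 < ρ / X₁ := by positivity
      have h4 : C₀ * ρ / X₁ = C₀ * (ρ / X₁) := by ring
      rw [h4]
      nlinarith [mul_nonneg hK0 h2.le, mul_nonneg hK0 h3.le, mul_pos hC₀ h2]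
    refine (h1.trans hX).trans (mul_le_mul_of_nonneg_left ?_ hH.le)
    refine pow_le_pow_left₀ (by positivity) ?_ 3
    push_cast
    rw [← pow_mul]
    exact div_le_div_of_nonneg_right (by norm_num) (by positivity)
  have hmain := b5_main (Λ := Λ) (E := 3 * m + 3) (P := M₀ ^ (N₁ * m)) (M := M₀) (a := a) (f := f) (g := g)
    (D := C₁ ^ N₁ * (M₀ : ℝ) ^ (ε / 2 * ((N₁ * m : ℕ) : ℝ))) hl hΛ1 (by omega) hH hS hv hw (by positivity)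
    (fun B hBS hB => hsl m N₁ b H ρ X₁ X₂ _ f g r v w a B hH hρ5 (fun k hk => hS k (hBS hk)) hcrv hv hw hB le_rfl hX')
  rw [hpm]
  refine hmain.trans ?_
  obtain ⟨W, hW⟩ : ∃ W, W = ∑ r ∈ Finset.range (M₀ ^ (N₁ * m)), n12 (mu2 v w) (hs (arc b S (M₀ ^ (N₁ * m)) r) a (ff b f) (ff b g)) := ⟨_, rfl⟩
  have hW0 : 0 ≤ W := by rw [hW]; exact Finset.sum_nonneg fun _ _ => b5_nonneg _
  rw [← hW]
  have e1 : ((Λ : ℝ) * (M₀ : ℝ) ^ (3 * m + 3)) ^ (11 / 6 : ℝ) * ((Λ : ℝ) * (M₀ : ℝ) ^ (3 * m + 3)) =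
      (Λ : ℝ) ^ (17 / 6 : ℝ) * ((M₀ : ℝ) ^ (3 * m + 3)) ^ (17 / 6 : ℝ) := by
    have h1 : (0 : ℝ) < (Λ : ℝ) * (M₀ : ℝ) ^ (3 * m + 3) := by positivity
    calc ((Λ : ℝ) * (M₀ : ℝ) ^ (3 * m + 3)) ^ (11 / 6 : ℝ) * ((Λ : ℝ) * (M₀ : ℝ) ^ (3 * m + 3)) =
        ((Λ : ℝ) * (M₀ : ℝ) ^ (3 * m + 3)) ^ (11 / 6 : ℝ) * ((Λ : ℝ) * (M₀ : ℝ) ^ (3 * m + 3)) ^ (1 : ℝ) := by rw [rpow_one]
      _ = ((Λ : ℝ) * (M₀ : ℝ) ^ (3 * m + 3)) ^ (17 / 6 : ℝ) := by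
          rw [← rpow_add h1]
          norm_num
      _ = _ := mul_rpow hΛ0.le (by positivity)
  have e2 : ((M₀ : ℝ) ^ (3 * m + 3)) ^ (17 / 6 : ℝ) * (M₀ : ℝ) ^ (ε / 2 * ((N₁ * m : ℕ) : ℝ)) ≤
      (M₀ : ℝ) ^ (17 / 2 : ℝ) * ((M₀ ^ N₁ : ℕ) : ℝ) ^ (ε * (m : ℝ)) := by
    push_cast
    rw [← rpow_natCast (M₀ : ℝ) (3 * m + 3), ← rpow_natCast (M₀ : ℝ) N₁, ← rpow_mul hM₀0.le, ← rpow_mul hM₀0.le, ← rpow_add hM₀0,
      ← rpow_add hM₀0]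
    refine rpow_le_rpow_of_exponent_le (by linarith) ?_
    push_cast
    have hm0 : (0 : ℝ) ≤ m := by positivity
    nlinarith [mul_le_mul_of_nonneg_left hN3 hm0]
  calc ((Λ : ℝ) * (M₀ : ℝ) ^ (3 * m + 3)) ^ (11 / 6 : ℝ) * (((Λ : ℝ) * (M₀ : ℝ) ^ (3 * m + 3)) *
        (C₁ ^ N₁ * (M₀ : ℝ) ^ (ε / 2 * ((N₁ * m : ℕ) : ℝ)) * ((24 * 24 : ℝ) ^ 2 * W)))
      = (((Λ : ℝ) * (M₀ : ℝ) ^ (3 * m + 3)) ^ (11 / 6 : ℝ) * ((Λ : ℝ) * (M₀ : ℝ) ^ (3 * m + 3))) *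
          (M₀ : ℝ) ^ (ε / 2 * ((N₁ * m : ℕ) : ℝ)) * (C₁ ^ N₁ * (24 * 24) ^ 2 * W) := by ring
    _ = (Λ : ℝ) ^ (17 / 6 : ℝ) * (((M₀ : ℝ) ^ (3 * m + 3)) ^ (17 / 6 : ℝ) * (M₀ : ℝ) ^ (ε / 2 * ((N₁ * m : ℕ) : ℝ))) *
          (C₁ ^ N₁ * (24 * 24) ^ 2 * W) := by rw [e1]; ring
    _ ≤ (Λ : ℝ) ^ (17 / 6 : ℝ) * ((M₀ : ℝ) ^ (17 / 2 : ℝ) * ((M₀ ^ N₁ : ℕ) : ℝ) ^ (ε * (m : ℝ))) *
          (C₁ ^ N₁ * (24 * 24) ^ 2 * W) := by
        refine mul_le_mul_of_nonneg_right (mul_le_mul_of_nonneg_left e2 (by positivity)) (by positivity)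
    _ = K * ((M₀ ^ N₁ : ℕ) : ℝ) ^ (ε * (m : ℝ)) * W := by rw [hK]; ring
    _ ≤ (K + C₀ + 1) * ((M₀ ^ N₁ : ℕ) : ℝ) ^ (ε * (m : ℝ)) * W := by
        refine mul_le_mul_of_nonneg_right (mul_le_mul_of_nonneg_right (by linarith) (by positivity)) hW0

end Pool.Agent.Helper78.CG
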