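import Pool.Agent.Helper78.CG.C1
import Pool.Agent.Helper78.CG.B5
import Pool.Agent.Helper92.GC.R2

/-!
# CG-C2: from thin slabs to the region, exponent 6
-/

open MeasureTheory Real Set Filter Topology

set_option autoImplicit false

namespace Pool.Agent.Helper78.CG

open Pool.Agent.Helper22.AE
open Pool.Agent.Helper92.GC
open Pool.Agent.Helper22.AC (n6 IsWt mu sep Sys)
open Pool.Agent.Helper78.CE (mem_arc')

open Classical in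
private lemma sbl_mul6 {β H L : ℝ} (hH : 0 < H) (hL : 0 < L) {S : Finset (ℤ × ℤ)} (hS : ∀ k ∈ S, 0 ≤ uu β k)
    (l : ℕ) (A : ℤ × ℤ → ℂ) : m6 (sbl β H L S l) A ≤ (14 * 14 : ℝ) ^ 6 * m6 S A := by
  have h1 := mul_comp (cut_u S β (H * l / L)) (mul_half_lt S (-1) (-β) (-(H * (l + 1) / L)))
  have h2 : IsMul S (fun k => if ⌊uu β k * L / H⌋₊ = l then 1 else 0) (14 * 14) := by
    refine mul_congr (fun k hk => ?_) h1
    have h3 := sbl_iff hH hL (hS k hk) l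
    have h4 : -(H * (l + 1) / L) < (-1) * (k.1 : ℝ) + (-β) * (k.2 : ℝ) ↔ uu β k < H * (l + 1) / L := by
      unfold uu
      constructor <;> intro h <;> linarith
    by_cases h5 : H * l / L ≤ uu β k
    · by_cases h6 : uu β k < H * (l + 1) / L
      · rw [if_pos h5, if_pos (h4.2 h6), if_pos (h3.2 ⟨h5, h6⟩), one_mul]
      · rw [if_neg (fun h => h6 (h4.1 h)), if_neg (fun h => h6 (h3.1 h).2), mul_zero]
    · rw [if_neg h5, if_neg (fun h => h5 (h3.1 h).1), zero_mul]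
  refine le_trans (le_of_eq ?_) (h2.2 A)
  have h6 := m6_filter S (fun k => ⌊uu β k * L / H⌋₊ = l) A
  unfold sbl
  convert h6

open Classical in
private lemma sbl_arc6 (β H L : ℝ) (S : Finset (ℤ × ℤ)) (N r l : ℕ) :
    arc β (sbl β H L S l) N r = sbl β H L (arc β S N r) l := by
  unfold arc sbl
  rw [Finset.filter_filter, Finset.filter_filter]
  refine Finset.filter_congr fun k _ => ?_
  exact and_comm

private lemma c2_nonneg {v : ℝ → ℝ} (f : (ℝ × ℝ) × ℝ → ℂ) : 0 ≤ n6 (mu v) f :=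
  rpow_nonneg (integral_nonneg fun _ => by positivity) _

private lemma c2_main {lam ρ D : ℝ} {M Λ E P : ℕ} (hlam : 1 ≤ lam) (hΛ : lam < Λ) (hM : 1 ≤ M) {β H X : ℝ} {v : ℝ → ℝ}
    {f : ℝ → ℝ} {a : ℤ × ℤ → ℂ} {S : Finset (ℤ × ℤ)} (hH : 0 < H) (hS : Rg β H lam ρ S) (hv : IsWt X v) (hD : 0 ≤ D)
    (hslab : ∀ B : Finset (ℤ × ℤ), B ⊆ S → (∀ k ∈ B, ∀ k' ∈ B, |uu β k - uu β k'| ≤ (1 / (M : ℝ)) ^ E * H) →
      n6 (mu v) (gs B a (ff β f)) ≤ D * ∑ r ∈ Finset.range P, n6 (mu v) (gs (arc β B P r) a (ff β f))) :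
    n6 (mu v) (gs S a (ff β f)) ≤ (Λ * (M : ℝ) ^ E) ^ (5 / 3 : ℝ) * ((Λ * (M : ℝ) ^ E) *
      (D * ((14 * 14 : ℝ) ^ 2 * ∑ r ∈ Finset.range P, n6 (mu v) (gs (arc β S P r) a (ff β f))))) := by
  classical
  have hM0 : (0 : ℝ) < M := by exact_mod_cast hM
  have hL0 : (0 : ℝ) < (M : ℝ) ^ E := by positivity
  have hlam0 : 0 < lam := by linarith
  have hprob := Pool.Agent.Helper22.AC.mu_prob hv
  have hpos : ∀ k ∈ S, 0 < uu β k := fun k hk => lt_of_lt_of_le (by positivity) (hS k hk).1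
  have hfl : ∀ k ∈ S, ⌊uu β k * (M : ℝ) ^ E / H⌋₊ ∈ Finset.range (Λ * M ^ E) := by
    intro k hk
    have hΛ0 : 0 < Λ := by
      have : (0 : ℝ) < Λ := by linarith
      exact_mod_cast this
    rw [Finset.mem_range, Nat.floor_lt' (Nat.mul_ne_zero hΛ0.ne' (pow_pos hM _).ne')]
    rw [div_lt_iff₀ hH]
    push_cast
    have h1 := (hS k hk).2.1
    have h2 : uu β k * (M : ℝ) ^ E ≤ lam * H * (M : ℝ) ^ E := mul_le_mul_of_nonneg_right h1 hL0.le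
    have h3 : lam * H * (M : ℝ) ^ E < Λ * (M : ℝ) ^ E * H := by
      have : lam * (H * (M : ℝ) ^ E) < Λ * (H * (M : ℝ) ^ E) := mul_lt_mul_of_pos_right hΛ (by positivity)
      linarith
    linarith
  have hsum : gs S a (ff β f) = fun q => ∑ l ∈ Finset.range (Λ * M ^ E),
      gs (sbl β H ((M : ℝ) ^ E) S l) a (ff β f) q := by
    funext q
    unfold gs sbl
    exact (Finset.sum_fiberwise_of_maps_to hfl _).symm
  rw [hsum]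
  refine (Pool.Agent.Helper22.AC.n6_sum_le (mu v) (Λ * M ^ E)
    (fun l => gs (sbl β H ((M : ℝ) ^ E) S l) a (ff β f))
    (fun l => (gs_cont _ _ _).measurable) (fun l => ⟨_, gs_norm_le _ _ _⟩)).trans ?_
  have hcast : ((Λ * M ^ E : ℕ) : ℝ) = Λ * (M : ℝ) ^ E := by push_cast; rfl
  rw [hcast]
  apply mul_le_mul_of_nonneg_left _ (by positivity)
  have hterm : ∀ l ∈ Finset.range (Λ * M ^ E),
      n6 (mu v) (gs (sbl β H ((M : ℝ) ^ E) S l) a (ff β f)) ≤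
      D * ((14 * 14 : ℝ) ^ 2 * ∑ r ∈ Finset.range P, n6 (mu v) (gs (arc β S P r) a (ff β f))) := by
    intro l _
    have hsub : sbl β H ((M : ℝ) ^ E) S l ⊆ S := Finset.filter_subset _ _
    refine (hslab _ hsub ?_).trans ?_
    · intro k hk k' hk'
      unfold sbl at hk hk'
      rw [Finset.mem_filter] at hk hk'
      have h1 := (sbl_iff hH hL0 (hpos k hk.1).le l).1 hk.2
      have h2 := (sbl_iff hH hL0 (hpos k' hk'.1).le l).1 hk'.2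
      have h3 : (1 / (M : ℝ)) ^ E * H = H * (l + 1) / (M : ℝ) ^ E - H * l / (M : ℝ) ^ E := by
        rw [one_div, inv_pow]
        field_simp
        ring
      rw [h3, abs_le]
      constructor <;> linarith [h1.1, h1.2, h2.1, h2.2]
    · apply mul_le_mul_of_nonneg_left _ hD
      rw [Finset.mul_sum]
      refine Finset.sum_le_sum fun r _ => ?_
      rw [sbl_arc6]
      refine n6_le_of_m6 hv (by norm_num) fun R => ?_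
      apply sbl_mul6 hH hL0
      intro k hk
      exact (hpos k (mem_arc'.1 hk).1).le
  refine (Finset.sum_le_sum hterm).trans ?_
  rw [Finset.sum_const, Finset.card_range, nsmul_eq_mul, hcast]

theorem dec6' {ε c C₀ lam : ℝ} (hε : 0 < ε) (hc : 0 < c) (hl : 1 ≤ lam) : ∃ M : ℕ, 2 ≤ M ∧ ∃ C : ℝ, 1 ≤ C ∧
    ∀ (m : ℕ) (b H ρ X₁ : ℝ) (f v : ℝ → ℝ) (a : ℤ × ℤ → ℂ) (S : Finset (ℤ × ℤ)), 0 < H → 0 < X₁ → 0 < ρ → ρ ≤ 5 →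
      (∀ k ∈ S, H / lam ≤ uu b k ∧ uu b k ≤ lam * H ∧ |tt b k| ≤ ρ) → Crv6 c C₀ ρ f → IsWt X₁ v →
      C / X₁ ≤ H * (1 / (M : ℝ) ^ m) ^ 2 →
      n6 (mu v) (gs S a (ff b f)) ≤ C * (M : ℝ) ^ (ε * (m : ℝ)) *
        ∑ r ∈ Finset.range (M ^ m), n6 (mu v) (gs (arc b S (M ^ m) r) a (ff b f)) := by
  obtain ⟨M₀, hM₀, C₁, hC₁, hsl⟩ := slab_6 (ε := ε / 2) (c := c) (C₀ := C₀) (lam := lam) (by positivity) hc
  obtain ⟨N₁, hN₁⟩ : ∃ N₁ : ℕ, N₁ = ⌈11 / ε⌉₊ + 1 := ⟨_, rfl⟩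
  have hN1 : 1 ≤ N₁ := by omega
  have hN2 : 11 / ε ≤ N₁ := by
    rw [hN₁]
    push_cast
    have := Nat.le_ceil (11 / ε)
    linarith
  have hN3 : 11 ≤ N₁ * ε := by rwa [div_le_iff₀ hε] at hN2
  obtain ⟨Λ, hΛ⟩ : ∃ Λ : ℕ, Λ = ⌈lam⌉₊ + 1 := ⟨_, rfl⟩
  have hΛ1 : lam < Λ := by
    rw [hΛ]
    push_cast
    have := Nat.le_ceil lam
    linarith
  have hM₀r : (2 : ℝ) ≤ M₀ := by exact_mod_cast hM₀
  have hM₀0 : (0 : ℝ) < M₀ := by linarith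
  have hΛ0 : (0 : ℝ) < Λ := by linarith
  obtain ⟨K, hK⟩ : ∃ K : ℝ, K = (Λ : ℝ) ^ (8 / 3 : ℝ) * (C₁ ^ N₁ * (14 * 14) ^ 2) := ⟨_, rfl⟩
  have hK0 : 0 ≤ K := by rw [hK]; positivity
  refine ⟨M₀ ^ N₁, ?_, K + 1, by linarith, ?_⟩
  · calc 2 ≤ M₀ := hM₀
      _ = M₀ ^ 1 := (pow_one _).symm
      _ ≤ M₀ ^ N₁ := Nat.pow_le_pow_right (by omega) hN1
  intro m b H ρ X₁ f v a S hH hX₁ hρ hρ5 hS hcrv hv hX
  have hpm : (M₀ ^ N₁) ^ m = M₀ ^ (N₁ * m) := by rw [← pow_mul]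
  have hX' : 1 / X₁ ≤ H * (12 / (M₀ : ℝ) ^ (N₁ * m)) ^ 2 := by
    have h1 : 1 / X₁ ≤ (K + 1) / X₁ := div_le_div_of_nonneg_right (by linarith) hX₁.le
    refine (h1.trans hX).trans (mul_le_mul_of_nonneg_left ?_ hH.le)
    refine pow_le_pow_left₀ (by positivity) ?_ 2
    push_cast
    rw [← pow_mul]
    exact div_le_div_of_nonneg_right (by norm_num) (by positivity)
  have hmain := c2_main (Λ := Λ) (E := 2 * m) (P := M₀ ^ (N₁ * m)) (M := M₀) (a := a) (f := f)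
    (D := C₁ ^ N₁ * (M₀ : ℝ) ^ (ε / 2 * ((N₁ * m : ℕ) : ℝ))) hl hΛ1 (by omega) hH hS hv (by positivity)
    (fun B hBS hB => hsl m N₁ b H ρ X₁ _ f v a B hl hH hρ5 (fun k hk => hS k (hBS hk)) hcrv hv hB le_rfl hX')
  rw [hpm]
  refine hmain.trans ?_
  obtain ⟨W, hW⟩ : ∃ W, W = ∑ r ∈ Finset.range (M₀ ^ (N₁ * m)), n6 (mu v) (gs (arc b S (M₀ ^ (N₁ * m)) r) a (ff b f)) := ⟨_, rfl⟩
  have hW0 : 0 ≤ W := by rw [hW]; exact Finset.sum_nonneg fun _ _ => c2_nonneg _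
  rw [← hW]
  have e1 : ((Λ : ℝ) * (M₀ : ℝ) ^ (2 * m)) ^ (5 / 3 : ℝ) * ((Λ : ℝ) * (M₀ : ℝ) ^ (2 * m)) =
      (Λ : ℝ) ^ (8 / 3 : ℝ) * ((M₀ : ℝ) ^ (2 * m)) ^ (8 / 3 : ℝ) := by
    have h1 : (0 : ℝ) < (Λ : ℝ) * (M₀ : ℝ) ^ (2 * m) := by positivity
    calc ((Λ : ℝ) * (M₀ : ℝ) ^ (2 * m)) ^ (5 / 3 : ℝ) * ((Λ : ℝ) * (M₀ : ℝ) ^ (2 * m)) =
        ((Λ : ℝ) * (M₀ : ℝ) ^ (2 * m)) ^ (5 / 3 : ℝ) * ((Λ : ℝ) * (M₀ : ℝ) ^ (2 * m)) ^ (1 : ℝ) := by rw [rpow_one]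
      _ = ((Λ : ℝ) * (M₀ : ℝ) ^ (2 * m)) ^ (8 / 3 : ℝ) := by
          rw [← rpow_add h1]
          norm_num
      _ = _ := mul_rpow hΛ0.le (by positivity)
  have e2 : ((M₀ : ℝ) ^ (2 * m)) ^ (8 / 3 : ℝ) * (M₀ : ℝ) ^ (ε / 2 * ((N₁ * m : ℕ) : ℝ)) ≤
      ((M₀ ^ N₁ : ℕ) : ℝ) ^ (ε * (m : ℝ)) := by
    push_cast
    rw [← rpow_natCast (M₀ : ℝ) (2 * m), ← rpow_natCast (M₀ : ℝ) N₁, ← rpow_mul hM₀0.le, ← rpow_mul hM₀0.le, ← rpow_add hM₀0]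
    refine rpow_le_rpow_of_exponent_le (by linarith) ?_
    push_cast
    have hm0 : (0 : ℝ) ≤ m := by positivity
    nlinarith [mul_le_mul_of_nonneg_left hN3 hm0]
  calc ((Λ : ℝ) * (M₀ : ℝ) ^ (2 * m)) ^ (5 / 3 : ℝ) * (((Λ : ℝ) * (M₀ : ℝ) ^ (2 * m)) *
        (C₁ ^ N₁ * (M₀ : ℝ) ^ (ε / 2 * ((N₁ * m : ℕ) : ℝ)) * ((14 * 14 : ℝ) ^ 2 * W)))
      = (((Λ : ℝ) * (M₀ : ℝ) ^ (2 * m)) ^ (5 / 3 : ℝ) * ((Λ : ℝ) * (M₀ : ℝ) ^ (2 * m))) *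
          (M₀ : ℝ) ^ (ε / 2 * ((N₁ * m : ℕ) : ℝ)) * (C₁ ^ N₁ * (14 * 14) ^ 2 * W) := by ring
    _ = (Λ : ℝ) ^ (8 / 3 : ℝ) * (((M₀ : ℝ) ^ (2 * m)) ^ (8 / 3 : ℝ) * (M₀ : ℝ) ^ (ε / 2 * ((N₁ * m : ℕ) : ℝ))) *
          (C₁ ^ N₁ * (14 * 14) ^ 2 * W) := by rw [e1]; ring
    _ ≤ (Λ : ℝ) ^ (8 / 3 : ℝ) * (((M₀ ^ N₁ : ℕ) : ℝ) ^ (ε * (m : ℝ))) * (C₁ ^ N₁ * (14 * 14) ^ 2 * W) := by
        refine mul_le_mul_of_nonneg_right (mul_le_mul_of_nonneg_left e2 (by positivity)) (by positivity)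
    _ = K * ((M₀ ^ N₁ : ℕ) : ℝ) ^ (ε * (m : ℝ)) * W := by rw [hK]; ring
    _ ≤ (K + 1) * ((M₀ ^ N₁ : ℕ) : ℝ) ^ (ε * (m : ℝ)) * W := by
        refine mul_le_mul_of_nonneg_right (mul_le_mul_of_nonneg_right (by linarith) (by positivity)) hW0

end Pool.Agent.Helper78.CG
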