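import Pool.Agent.Helper78.CG.B5
import Pool.Agent.Helper78.CG.C2

/-!
# CG: the two region theorems
-/

open MeasureTheory Real Set Filter Topology

set_option autoImplicit false

namespace Pool.Agent.Helper78.CG

open Pool.Agent.Helper22.AE
open Pool.Agent.Helper92.GC
open Pool.Agent.Helper22.AC (n6 IsWt mu)
open Pool.Agent.Helper78.CD (n12)
open Pool.Agent.Helper78.CE (hs mu2)

theorem dec12 {ε c C₀ lam : ℝ} (hε : 0 < ε) (hc : 0 < c) (hl : 1 ≤ lam) : ∃ M : ℕ, 2 ≤ M ∧ ∃ C : ℝ, 1 ≤ C ∧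
    ∀ (m : ℕ) (b H ρ X₁ X₂ : ℝ) (f g r v w : ℝ → ℝ) (a : ℤ × ℤ → ℂ) (S : Finset (ℤ × ℤ)), 0 < H → 0 < X₁ → 0 < X₂ → 0 < ρ → ρ ≤ 5 →
      (∀ k ∈ S, H / lam ≤ uu b k ∧ uu b k ≤ lam * H ∧ |tt b k| ≤ ρ) → Crv c C₀ ρ f g r → IsWt X₁ v → IsWt X₂ w →
      C * (1 / X₂ + ρ / X₁) ≤ H * (1 / (M : ℝ) ^ m) ^ 3 →
      n12 (mu2 v w) (hs S a (ff b f) (ff b g)) ≤ C * (M : ℝ) ^ (ε * (m : ℝ)) *
        ∑ r ∈ Finset.range (M ^ m), n12 (mu2 v w) (hs (arc b S (M ^ m) r) a (ff b f) (ff b g)) := by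
  exact dec12' hε hc hl

theorem dec6 {ε c C₀ lam : ℝ} (hε : 0 < ε) (hc : 0 < c) (hl : 1 ≤ lam) : ∃ M : ℕ, 2 ≤ M ∧ ∃ C : ℝ, 1 ≤ C ∧
    ∀ (m : ℕ) (b H ρ X₁ : ℝ) (f v : ℝ → ℝ) (a : ℤ × ℤ → ℂ) (S : Finset (ℤ × ℤ)), 0 < H → 0 < X₁ → 0 < ρ → ρ ≤ 5 →
      (∀ k ∈ S, H / lam ≤ uu b k ∧ uu b k ≤ lam * H ∧ |tt b k| ≤ ρ) → Crv6 c C₀ ρ f → IsWt X₁ v →
      C / X₁ ≤ H * (1 / (M : ℝ) ^ m) ^ 2 →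
      n6 (mu v) (gs S a (ff b f)) ≤ C * (M : ℝ) ^ (ε * (m : ℝ)) *
        ∑ r ∈ Finset.range (M ^ m), n6 (mu v) (gs (arc b S (M ^ m) r) a (ff b f)) := by
  exact dec6' hε hc hl

end Pool.Agent.Helper78.CG
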