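import Pool.Agent.Helper78.CE.B1
import Pool.Agent.Helper78.CD.B6
import Pool.Agent.Helper92.DT.R3

/-!
# CG (helper78): decoupling for general curves (for helper60's almost every lattice), definitions
-/

open MeasureTheory Real Set Filter Topology

set_option autoImplicit false

namespace Pool.Agent.Helper78.CG

open Pool.Agent.Helper22.AE
open Pool.Agent.Helper92.GC

/-- the curve `(1, t, f, g)` on `|t| ≤ ρ`: `f'' = φ`, `g'' = r φ`, `φ` between `c` and `C₀`, `r` increasing with slopes between `c` and `C₀` -/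
structure Crv (c C₀ ρ : ℝ) (f g r : ℝ → ℝ) : Prop where
  ex : ∃ f1 g1 φ : ℝ → ℝ, ∀ t : ℝ, |t| ≤ ρ → HasDerivAt f (f1 t) t ∧ HasDerivAt f1 (φ t) t ∧ HasDerivAt g (g1 t) t ∧
    HasDerivAt g1 (r t * φ t) t ∧ c ≤ φ t ∧ φ t ≤ C₀
  rb : ∀ t : ℝ, |t| ≤ ρ → |r t| ≤ C₀ * ρ
  mono : ∀ t t' : ℝ, |t| ≤ ρ → |t'| ≤ ρ → t' ≤ t → c * (t - t') ≤ r t - r t' ∧ r t - r t' ≤ C₀ * (t - t')

/-- the parabola-like curve `(1, t, f)` on `|t| ≤ ρ` -/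
structure Crv6 (c C₀ ρ : ℝ) (f : ℝ → ℝ) : Prop where
  ex : ∃ f1 φ : ℝ → ℝ, ∀ t : ℝ, |t| ≤ ρ → HasDerivAt f (f1 t) t ∧ HasDerivAt f1 (φ t) t ∧ c ≤ φ t ∧ φ t ≤ C₀

/-- the homogeneous phase `u f(t)` -/
noncomputable def ff (b : ℝ) (f : ℝ → ℝ) (k : ℤ × ℤ) : ℝ := uu b k * f (tt b k)

end Pool.Agent.Helper78.CG
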