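import Pool.Agent.Helper78.CG.Defs

/-!
# CG-B1: the phase functions of the curve relative to one arc and to two arcs
-/

open MeasureTheory Real Set Filter Topology

set_option autoImplicit false

namespace Pool.Agent.Helper78.CG

theorem mvt {G F : ℝ → ℝ} {ρ : ℝ} (h : ∀ t, |t| ≤ ρ → HasDerivAt G (F t) t) {p q : ℝ} (hp : |p| ≤ ρ) (hq : |q| ≤ ρ) :
    ∃ s ∈ uIcc p q, G q - G p = F s * (q - p) := by
  have key : ∀ {a b : ℝ}, |a| ≤ ρ → |b| ≤ ρ → a < b → ∃ s ∈ Icc a b, G b - G a = F s * (b - a) := by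
    intro a b ha hb hab
    have hin : ∀ x ∈ Icc a b, |x| ≤ ρ := by
      intro x hx
      rw [abs_le] at ha hb ⊢
      exact ⟨ha.1.trans hx.1, hx.2.trans hb.2⟩
    obtain ⟨s, hs, he⟩ := exists_hasDerivAt_eq_slope G F hab
      (fun x hx => (h x (hin x hx)).continuousAt.continuousWithinAt) (fun x hx => h x (hin x (Ioo_subset_Icc_self hx)))
    refine ⟨s, Ioo_subset_Icc_self hs, ?_⟩
    rw [he]
    have : b - a ≠ 0 := by linarith
    field_simp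
  rcases lt_trichotomy p q with hpq | hpq | hpq
  · rw [uIcc_of_le hpq.le]
    exact key hp hq hpq
  · subst hpq
    exact ⟨p, by simp, by ring⟩
  · rw [uIcc_of_ge hpq.le]
    obtain ⟨s, hs, he⟩ := key hq hp hpq
    exact ⟨s, hs, by linarith⟩

theorem cauchy {G F Q P : ℝ → ℝ} {ρ : ℝ} (hG : ∀ t, |t| ≤ ρ → HasDerivAt G (F t) t) (hQ : ∀ t, |t| ≤ ρ → HasDerivAt Q (P t) t)
    {p q : ℝ} (hp : |p| ≤ ρ) (hq : |q| ≤ ρ) (hne : p ≠ q) :
    ∃ s, min p q < s ∧ s < max p q ∧ |s| ≤ ρ ∧ (G q - G p) * P s = (Q q - Q p) * F s := by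
  have key : ∀ {a b : ℝ}, |a| ≤ ρ → |b| ≤ ρ → a < b → ∃ s ∈ Ioo a b, |s| ≤ ρ ∧ (G b - G a) * P s = (Q b - Q a) * F s := by
    intro a b ha hb hab
    have hin : ∀ x ∈ Icc a b, |x| ≤ ρ := by
      intro x hx
      rw [abs_le] at ha hb ⊢
      exact ⟨ha.1.trans hx.1, hx.2.trans hb.2⟩
    obtain ⟨s, hs, he⟩ := exists_ratio_hasDerivAt_eq_ratio_slope Q P hab
      (fun x hx => (hQ x (hin x hx)).continuousAt.continuousWithinAt) (fun x hx => hQ x (hin x (Ioo_subset_Icc_self hx)))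
      G F (fun x hx => (hG x (hin x hx)).continuousAt.continuousWithinAt) (fun x hx => hG x (hin x (Ioo_subset_Icc_self hx)))
    exact ⟨s, hs, hin s (Ioo_subset_Icc_self hs), he⟩
  rcases lt_or_gt_of_ne hne with hpq | hpq
  · rw [min_eq_left hpq.le, max_eq_right hpq.le]
    obtain ⟨s, hs, h1, he⟩ := key hp hq hpq
    exact ⟨s, hs.1, hs.2, h1, he⟩
  · rw [min_eq_right hpq.le, max_eq_left hpq.le]
    obtain ⟨s, hs, h1, he⟩ := key hq hp hpq
    exact ⟨s, hs.1, hs.2, h1, by linarith⟩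

/-- the hypotheses on `φ`, `r` -/
structure Wt (c C₀ ρ : ℝ) (φ r : ℝ → ℝ) : Prop where
  cpos : 0 < c
  lo : ∀ t, |t| ≤ ρ → c ≤ φ t
  hi : ∀ t, |t| ≤ ρ → φ t ≤ C₀
  mono : ∀ t t' : ℝ, |t| ≤ ρ → |t'| ≤ ρ → t' ≤ t → c * (t - t') ≤ r t - r t' ∧ r t - r t' ≤ C₀ * (t - t')

theorem Wt.rabs {c C₀ ρ : ℝ} {φ r : ℝ → ℝ} (h : Wt c C₀ ρ φ r) {t t' : ℝ} (ht : |t| ≤ ρ) (ht' : |t'| ≤ ρ) :
    c * |t - t'| ≤ |r t - r t'| ∧ |r t - r t'| ≤ C₀ * |t - t'| := by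
  have hc := h.cpos
  rcases le_total t' t with hle | hle
  · obtain ⟨h1, h2⟩ := h.mono t t' ht ht' hle
    have h3 : 0 ≤ t - t' := by linarith
    have h4 : 0 ≤ r t - r t' := le_trans (mul_nonneg hc.le h3) h1
    rw [abs_of_nonneg h3, abs_of_nonneg h4]
    exact ⟨h1, h2⟩
  · obtain ⟨h1, h2⟩ := h.mono t' t ht' ht hle
    have h3 : 0 ≤ t' - t := by linarith
    have h4 : 0 ≤ r t' - r t := le_trans (mul_nonneg hc.le h3) h1
    rw [abs_sub_comm t t', abs_sub_comm (r t) (r t'), abs_of_nonneg h3, abs_of_nonneg h4]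
    exact ⟨h1, h2⟩

theorem Wt.Cpos {c C₀ ρ : ℝ} {φ r : ℝ → ℝ} (h : Wt c C₀ ρ φ r) {t : ℝ} (ht : |t| ≤ ρ) : c ≤ C₀ :=
  (h.lo t ht).trans (h.hi t ht)

/-- `F` with `F' = φ (r - r ξ)` behaves like a multiple of `(t - ξ)²` -/
theorem f_diff {c C₀ ρ ξ : ℝ} {F φ r : ℝ → ℝ} (hw : Wt c C₀ ρ φ r) (hF : ∀ t, |t| ≤ ρ → HasDerivAt F (φ t * (r t - r ξ)) t)
    (hξ : |ξ| ≤ ρ) {s t : ℝ} (hs : |s| ≤ ρ) (ht : |t| ≤ ρ) (hside : 0 ≤ (s - ξ) * (t - ξ)) :
    c ^ 2 / 2 * |(t - ξ) ^ 2 - (s - ξ) ^ 2| ≤ |F t - F s| ∧ |F t - F s| ≤ C₀ ^ 2 / 2 * |(t - ξ) ^ 2 - (s - ξ) ^ 2| := by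
  have hc := hw.cpos
  rcases eq_or_ne s t with hst | hst
  · subst hst
    simp
  obtain ⟨η, h1, h2, h3, he⟩ := cauchy (Q := fun x => (x - ξ) ^ 2) (P := fun x => 2 * (x - ξ)) hF (fun x _ => by
    have := ((hasDerivAt_id' x).sub_const ξ).fun_pow 2
    simpa using this) hs ht hst
  have hη : η - ξ ≠ 0 := by
    intro h0
    have h0' : η = ξ := by linarith
    rw [h0'] at h1 h2
    rcases lt_or_gt_of_ne hst with h | h
    · rw [min_eq_left h.le] at h1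
      rw [max_eq_right h.le] at h2
      nlinarith
    · rw [min_eq_right h.le] at h1
      rw [max_eq_left h.le] at h2
      nlinarith
  have hpos : 0 < |η - ξ| := abs_pos.2 hη
  obtain ⟨r1, r2⟩ := hw.rabs h3 hξ
  have hφ1 := hw.lo η h3
  have hφ2 := hw.hi η h3
  have hφ0 : 0 < φ η := by linarith
  have hC0 : 0 < C₀ := by linarith
  have h4 : |F t - F s| * (2 * |η - ξ|) = |(t - ξ) ^ 2 - (s - ξ) ^ 2| * (φ η * |r η - r ξ|) := by
    have h5 := congrArg abs he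
    rw [abs_mul, abs_mul, abs_mul, abs_mul, abs_of_pos hφ0, abs_of_pos (by norm_num : (0 : ℝ) < 2)] at h5
    exact h5
  obtain ⟨q, hq⟩ : ∃ q, q = |(t - ξ) ^ 2 - (s - ξ) ^ 2| := ⟨_, rfl⟩
  rw [← hq] at h4 ⊢
  have hq0 : 0 ≤ q := by rw [hq]; exact abs_nonneg _
  have h5 : c * (c * |η - ξ|) ≤ φ η * |r η - r ξ| := mul_le_mul hφ1 r1 (by positivity) hφ0.le
  have h6 : φ η * |r η - r ξ| ≤ C₀ * (C₀ * |η - ξ|) := mul_le_mul hφ2 r2 (abs_nonneg _) hC0.le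
  have h7 := mul_le_mul_of_nonneg_left h5 hq0
  have h8 := mul_le_mul_of_nonneg_left h6 hq0
  rw [← h4] at h7 h8
  constructor
  · refine le_of_mul_le_mul_right ?_ (by positivity : 0 < 2 * |η - ξ|)
    calc c ^ 2 / 2 * q * (2 * |η - ξ|) = q * (c * (c * |η - ξ|)) := by ring
      _ ≤ _ := h7
  · refine le_of_mul_le_mul_right ?_ (by positivity : 0 < 2 * |η - ξ|)
    calc |F t - F s| * (2 * |η - ξ|) ≤ q * (C₀ * (C₀ * |η - ξ|)) := h8
      _ = C₀ ^ 2 / 2 * q * (2 * |η - ξ|) := by ring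

/-- points of a segment on one side of `w` -/
theorem seg_side {x x' w d s : ℝ} (h : 0 < (x - w) * (x' - w)) (h1 : d ≤ |x - w|) (h2 : d ≤ |x' - w|) (hs : s ∈ uIcc x x') :
    d ≤ |s - w| := by
  rw [mem_uIcc] at hs
  rcases lt_trichotomy (x - w) 0 with h3 | h3 | h3
  · have h4 : x' - w < 0 := by
      by_contra hcon
      push Not at hcon
      nlinarith
    rw [abs_of_neg h3] at h1
    rw [abs_of_neg h4] at h2
    refine le_trans ?_ (neg_le_abs _)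
    rcases hs with hs | hs <;> linarith [hs.1, hs.2]
  · rw [h3, zero_mul] at h
    exact absurd h (lt_irrefl 0)
  · have h4 : 0 < x' - w := by
      by_contra hcon
      push Not at hcon
      nlinarith
    rw [abs_of_pos h3] at h1
    rw [abs_of_pos h4] at h2
    refine le_trans ?_ (le_abs_self _)
    rcases hs with hs | hs <;> linarith [hs.1, hs.2]

theorem uIcc_abs {p q ρ s : ℝ} (hp : |p| ≤ ρ) (hq : |q| ≤ ρ) (hs : s ∈ uIcc p q) : |s| ≤ ρ := by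
  rw [mem_uIcc] at hs
  rw [abs_le] at hp hq ⊢
  rcases hs with hs | hs
  · exact ⟨hp.1.trans hs.1, hs.2.trans hq.2⟩
  · exact ⟨hq.1.trans hs.1, hs.2.trans hp.2⟩

theorem uIcc_dist {p q s : ℝ} (hs : s ∈ uIcc p q) : |s - p| ≤ |q - p| := by
  rw [mem_uIcc] at hs
  rcases hs with hs | hs
  · rw [abs_of_nonneg (by linarith [hs.1]), abs_of_nonneg (by linarith [hs.1, hs.2])]
    linarith [hs.2]
  · rw [abs_of_nonpos (by linarith [hs.2]), abs_of_nonpos (by linarith [hs.1, hs.2])]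
    linarith [hs.1]

/-- the phase relative to one arc -/
theorem crv1 {c C₀ ρ : ℝ} {f g r : ℝ → ℝ} (hc : 0 < c) (h : Crv c C₀ ρ f g r) {tJ : ℝ} (hJ : |tJ| ≤ ρ) :
    ∃ α β : ℝ, (∀ t, |t| ≤ ρ → |g t - r tJ * f t + α + β * t| ≤ C₀ ^ 2 * |t - tJ| ^ 3) ∧
      ∀ x x' d : ℝ, |x| ≤ ρ → |x'| ≤ ρ → 0 ≤ d → d ≤ |x - tJ| → d ≤ |x' - tJ| → 0 < (x - tJ) * (x' - tJ) →
        c ^ 2 / 2 * d ^ 2 * |x - x'| ≤ |(g x - r tJ * f x + α + β * x) - (g x' - r tJ * f x' + α + β * x')| := by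
  obtain ⟨f1, g1, φ, hd⟩ := h.ex
  have hw : Wt c C₀ ρ φ r := ⟨hc, fun t ht => (hd t ht).2.2.2.2.1, fun t ht => (hd t ht).2.2.2.2.2, h.mono⟩
  have hcC := hw.Cpos hJ
  obtain ⟨β, hβ⟩ : ∃ β, β = -(g1 tJ) + r tJ * f1 tJ := ⟨_, rfl⟩
  obtain ⟨α, hα⟩ : ∃ α, α = -(g tJ) + r tJ * f tJ - β * tJ := ⟨_, rfl⟩
  obtain ⟨G, hG⟩ : ∃ G : ℝ → ℝ, G = fun t => g t - r tJ * f t + α + β * t := ⟨_, rfl⟩
  obtain ⟨F, hF⟩ : ∃ F : ℝ → ℝ, F = fun t => g1 t - r tJ * f1 t + β := ⟨_, rfl⟩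
  have hGF : ∀ t, |t| ≤ ρ → HasDerivAt G (F t) t := by
    intro t ht
    obtain ⟨d1, d2, d3, d4, -⟩ := hd t ht
    rw [hG, hF]
    have h1 := ((d3.fun_sub (d1.const_mul (r tJ))).add_const α).fun_add ((hasDerivAt_id' t).const_mul β)
    simpa using h1
  have hFF : ∀ t, |t| ≤ ρ → HasDerivAt F (φ t * (r t - r tJ)) t := by
    intro t ht
    obtain ⟨d1, d2, d3, d4, -⟩ := hd t ht
    rw [hF]
    have h1 := (d4.fun_sub (d2.const_mul (r tJ))).add_const β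
    have e : φ t * (r t - r tJ) = r t * φ t - r tJ * φ t := by ring
    rw [e]
    exact h1
  have hG0 : G tJ = 0 := by rw [hG]; simp only; rw [hα]; ring
  have hF0 : F tJ = 0 := by rw [hF]; simp only; rw [hβ]; ring
  have hFb : ∀ t, |t| ≤ ρ → c ^ 2 / 2 * |t - tJ| ^ 2 ≤ |F t| ∧ |F t| ≤ C₀ ^ 2 / 2 * |t - tJ| ^ 2 := by
    intro t ht
    have h1 := f_diff hw hFF hJ hJ ht (s := tJ) (by rw [sub_self, zero_mul])
    rw [hF0, sub_zero, sub_self] at h1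
    have e : |(t - tJ) ^ 2 - 0 ^ 2| = |t - tJ| ^ 2 := by
      rw [zero_pow (by norm_num), sub_zero, abs_pow]
    rwa [e] at h1
  refine ⟨α, β, ?_, ?_⟩
  · intro t ht
    obtain ⟨s, hs, he⟩ := mvt hGF hJ ht
    have h1 := (hFb s (uIcc_abs hJ ht hs)).2
    have h2 := uIcc_dist hs
    have e : g t - r tJ * f t + α + β * t = F s * (t - tJ) := by
      rw [← he, hG0, hG]
      simp
    rw [e, abs_mul]
    calc |F s| * |t - tJ| ≤ (C₀ ^ 2 / 2 * |s - tJ| ^ 2) * |t - tJ| := mul_le_mul_of_nonneg_right h1 (abs_nonneg _)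
      _ ≤ (C₀ ^ 2 / 2 * |t - tJ| ^ 2) * |t - tJ| := by
          refine mul_le_mul_of_nonneg_right (mul_le_mul_of_nonneg_left ?_ (by positivity)) (abs_nonneg _)
          exact pow_le_pow_left₀ (abs_nonneg _) h2 2
      _ = C₀ ^ 2 / 2 * |t - tJ| ^ 3 := by ring
      _ ≤ C₀ ^ 2 * |t - tJ| ^ 3 := by
          refine mul_le_mul_of_nonneg_right ?_ (by positivity)
          have : 0 ≤ C₀ ^ 2 := by positivity
          linarith
  · intro x x' d hx hx' hd0 h1 h2 h3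
    obtain ⟨s, hs, he⟩ := mvt hGF hx' hx
    have h4 : d ≤ |s - tJ| := seg_side (by rw [mul_comm]; exact h3) h2 h1 hs
    have h5 := (hFb s (uIcc_abs hx' hx hs)).1
    have e : (g x - r tJ * f x + α + β * x) - (g x' - r tJ * f x' + α + β * x') = F s * (x - x') := by
      rw [← he, hG]
    rw [e, abs_mul]
    refine mul_le_mul_of_nonneg_right ?_ (abs_nonneg _)
    refine le_trans (mul_le_mul_of_nonneg_left ?_ (by positivity)) h5
    exact pow_le_pow_left₀ hd0 h4 2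

/-- the phase relative to two arcs -/
theorem crv2 {c C₀ ρ : ℝ} {f g r : ℝ → ℝ} (hc : 0 < c) (h : Crv c C₀ ρ f g r) {tJ tK : ℝ} (hJ : |tJ| ≤ ρ) (hK : |tK| ≤ ρ) (hne : tJ ≠ tK) :
    ∃ R α β : ℝ, |R| ≤ C₀ * ρ ∧ (∀ t, |t| ≤ ρ → |g t - R * f t + α + β * t| ≤ C₀ ^ 2 * (|t - tK| + |tJ - tK|) * |t - tK| ^ 2) ∧
      (∀ t, |t| ≤ ρ → |(g t - R * f t + α + β * t) - (g tJ - R * f tJ + α + β * tJ)| ≤ C₀ ^ 2 * (|t - tJ| + |tJ - tK|) * |t - tJ| ^ 2) ∧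
      ∀ x x' d D : ℝ, |x| ≤ ρ → |x'| ≤ ρ → 0 ≤ d → d ≤ D → D ≤ |x - tJ| → D ≤ |x' - tJ| → d ≤ |x - tK| → d ≤ |x' - tK| →
        0 < (x - tJ) * (x' - tJ) → 0 < (x - tK) * (x' - tK) →
        c ^ 3 / (4 * C₀) * (|tJ - tK| * d) * |x - x'| ≤ |(g x - R * f x + α + β * x) - (g x' - R * f x' + α + β * x')| := by
  obtain ⟨f1, g1, φ, hd⟩ := h.ex
  have hw : Wt c C₀ ρ φ r := ⟨hc, fun t ht => (hd t ht).2.2.2.2.1, fun t ht => (hd t ht).2.2.2.2.2, h.mono⟩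
  have hcC := hw.Cpos hJ
  have hC0 : 0 < C₀ := by linarith
  obtain ⟨ξ, h1, h2, hξ, he⟩ := cauchy (G := g1) (F := fun t => r t * φ t) (Q := f1) (P := φ) (ρ := ρ)
    (fun t ht => (hd t ht).2.2.2.1) (fun t ht => (hd t ht).2.1) hJ hK hne
  have hφξ : 0 < φ ξ := lt_of_lt_of_le hc (hw.lo ξ hξ)
  have hR : g1 tK - g1 tJ = r ξ * (f1 tK - f1 tJ) := by
    have h3 : (g1 tK - g1 tJ) * φ ξ = (r ξ * (f1 tK - f1 tJ)) * φ ξ := by
      rw [he]
      ring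
    exact mul_right_cancel₀ hφξ.ne' h3
  obtain ⟨β, hβ⟩ : ∃ β, β = -(g1 tK) + r ξ * f1 tK := ⟨_, rfl⟩
  obtain ⟨α, hα⟩ : ∃ α, α = -(g tK) + r ξ * f tK - β * tK := ⟨_, rfl⟩
  obtain ⟨G, hG⟩ : ∃ G : ℝ → ℝ, G = fun t => g t - r ξ * f t + α + β * t := ⟨_, rfl⟩
  obtain ⟨F, hF⟩ : ∃ F : ℝ → ℝ, F = fun t => g1 t - r ξ * f1 t + β := ⟨_, rfl⟩
  have hGF : ∀ t, |t| ≤ ρ → HasDerivAt G (F t) t := by
    intro t ht
    obtain ⟨d1, d2, d3, d4, -⟩ := hd t ht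
    rw [hG, hF]
    have h1 := ((d3.fun_sub (d1.const_mul (r ξ))).add_const α).fun_add ((hasDerivAt_id' t).const_mul β)
    simpa using h1
  have hFF : ∀ t, |t| ≤ ρ → HasDerivAt F (φ t * (r t - r ξ)) t := by
    intro t ht
    obtain ⟨d1, d2, d3, d4, -⟩ := hd t ht
    rw [hF]
    have h1 := (d4.fun_sub (d2.const_mul (r ξ))).add_const β
    have e : φ t * (r t - r ξ) = r t * φ t - r ξ * φ t := by ring
    rw [e]
    exact h1
  have hGK : G tK = 0 := by rw [hG]; simp only; rw [hα]; ring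
  have hFK : F tK = 0 := by rw [hF]; simp only; rw [hβ]; ring
  have hFJ : F tJ = 0 := by
    rw [hF]
    simp only
    rw [hβ]
    linarith
  -- `ξ` is between
  have hbet : (tJ - ξ) * (tK - ξ) < 0 := by
    rcases lt_or_gt_of_ne hne with h3 | h3
    · rw [min_eq_left h3.le] at h1
      rw [max_eq_right h3.le] at h2
      exact mul_neg_of_neg_of_pos (by linarith) (by linarith)
    · rw [min_eq_right h3.le] at h1
      rw [max_eq_left h3.le] at h2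
      exact mul_neg_of_pos_of_neg (by linarith) (by linarith)
  have hLA : |tJ - ξ| ≤ |tJ - tK| ∧ |tK - ξ| ≤ |tJ - tK| := by
    rcases lt_or_gt_of_ne hne with h3 | h3
    · rw [min_eq_left h3.le] at h1
      rw [max_eq_right h3.le] at h2
      rw [abs_of_neg (by linarith : tJ - tK < 0), abs_of_neg (by linarith : tJ - ξ < 0), abs_of_pos (by linarith : 0 < tK - ξ)]
      constructor <;> linarith
    · rw [min_eq_right h3.le] at h1
      rw [max_eq_left h3.le] at h2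
      rw [abs_of_pos (by linarith : 0 < tJ - tK), abs_of_pos (by linarith : 0 < tJ - ξ), abs_of_neg (by linarith : tK - ξ < 0)]
      constructor <;> linarith
  obtain ⟨A, hA⟩ : ∃ A, A = |tJ - ξ| := ⟨_, rfl⟩
  obtain ⟨B, hB⟩ : ∃ B, B = |tK - ξ| := ⟨_, rfl⟩
  have hA0 : 0 ≤ A := by rw [hA]; exact abs_nonneg _
  have hB0 : 0 ≤ B := by rw [hB]; exact abs_nonneg _
  have hFξ : ∀ {t : ℝ}, |t| ≤ ρ → F t = 0 → c ^ 2 / 2 * |t - ξ| ^ 2 ≤ |F ξ| ∧ |F ξ| ≤ C₀ ^ 2 / 2 * |t - ξ| ^ 2 := by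
    intro t ht h0
    have h3 := f_diff hw hFF hξ ht hξ (s := t) (t := ξ) (by rw [sub_self, mul_zero])
    rw [h0, sub_zero, sub_self] at h3
    have e : |(0 : ℝ) ^ 2 - (t - ξ) ^ 2| = |t - ξ| ^ 2 := by
      rw [zero_pow (by norm_num), zero_sub, abs_neg, abs_pow]
    rwa [e] at h3
  obtain ⟨a1, a2⟩ := hFξ hJ hFJ
  obtain ⟨b1, b2⟩ := hFξ hK hFK
  rw [← hA] at a1 a2
  rw [← hB] at b1 b2
  have hAB : c * A ≤ C₀ * B := by
    have h3 : (c * A) ^ 2 ≤ (C₀ * B) ^ 2 := by nlinarith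
    exact (pow_le_pow_iff_left₀ (by positivity) (by positivity) (by norm_num)).1 h3
  have hBA : c * B ≤ C₀ * A := by
    have h3 : (c * B) ^ 2 ≤ (C₀ * A) ^ 2 := by nlinarith
    exact (pow_le_pow_iff_left₀ (by positivity) (by positivity) (by norm_num)).1 h3
  -- the derivative
  have hlow1 : ∀ {t u w : ℝ}, |t| ≤ ρ → |u| ≤ ρ → F u = 0 → 0 ≤ (u - ξ) * (t - ξ) → c * |w - ξ| ≤ C₀ * |u - ξ| →
      c ^ 3 / (2 * C₀) * (|t - w| * |t - u|) ≤ |F t| := by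
    intro t u w ht hu h0 hside hwu
    have h3 := (f_diff hw hFF hξ hu ht hside).1
    rw [h0, sub_zero] at h3
    have e : (t - ξ) ^ 2 - (u - ξ) ^ 2 = (t - u) * ((t - ξ) + (u - ξ)) := by ring
    have h4 : |(t - ξ) + (u - ξ)| = |t - ξ| + |u - ξ| := by
      rcases mul_nonneg_iff.1 hside with h5 | h5
      · rw [abs_of_nonneg h5.1, abs_of_nonneg h5.2, abs_of_nonneg (add_nonneg h5.2 h5.1)]
      · rw [abs_of_nonpos h5.1, abs_of_nonpos h5.2, abs_of_nonpos (add_nonpos h5.2 h5.1)]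
        ring
    rw [e, abs_mul, h4] at h3
    have h5 : c * |t - w| ≤ C₀ * (|t - ξ| + |u - ξ|) := by
      have h6 : |t - w| ≤ |t - ξ| + |w - ξ| := by
        have := abs_sub_le t ξ w
        rwa [abs_sub_comm ξ w] at this
      have h7 : c * |t - ξ| ≤ C₀ * |t - ξ| := mul_le_mul_of_nonneg_right hcC (abs_nonneg _)
      nlinarith
    refine le_trans ?_ h3
    have h6 : c ^ 3 / (2 * C₀) * (|t - w| * |t - u|) = c ^ 2 / (2 * C₀) * |t - u| * (c * |t - w|) := by ring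
    rw [h6]
    calc c ^ 2 / (2 * C₀) * |t - u| * (c * |t - w|) ≤ c ^ 2 / (2 * C₀) * |t - u| * (C₀ * (|t - ξ| + |u - ξ|)) :=
          mul_le_mul_of_nonneg_left h5 (by positivity)
      _ = c ^ 2 / 2 * (|t - u| * (|t - ξ| + |u - ξ|)) := by
          field_simp
  have hlow : ∀ {t : ℝ}, |t| ≤ ρ → c ^ 3 / (2 * C₀) * (|t - tJ| * |t - tK|) ≤ |F t| := by
    intro t ht
    rcases le_total 0 ((tK - ξ) * (t - ξ)) with hs | hs
    · exact hlow1 ht hK hFK hs (by rw [← hA, ← hB]; exact hAB)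
    · have hs' : 0 ≤ (tJ - ξ) * (t - ξ) := by
        by_contra hcon
        push Not at hcon
        have h3 : 0 ≤ ((tK - ξ) * (t - ξ)) * ((tJ - ξ) * (t - ξ)) := mul_nonneg_of_nonpos_of_nonpos hs hcon.le
        have h4 : ((tK - ξ) * (t - ξ)) * ((tJ - ξ) * (t - ξ)) = ((tJ - ξ) * (tK - ξ)) * (t - ξ) ^ 2 := by ring
        have h5 : t - ξ ≠ 0 := by
          intro h6
          rw [h6, mul_zero] at hcon
          exact lt_irrefl _ hcon
        have h6 : 0 < (t - ξ) ^ 2 := by positivity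
        have h7 := mul_neg_of_neg_of_pos hbet h6
        linarith
      have := hlow1 (w := tK) ht hJ hFJ hs' (by rw [← hA, ← hB]; exact hBA)
      rwa [mul_comm |t - tK|] at this
  -- upper bound for the derivative near a zero
  have hup : ∀ {t u : ℝ}, |t| ≤ ρ → |u| ≤ ρ → F u = 0 → |u - ξ| ≤ |tJ - tK| → |F t| ≤ C₀ ^ 2 * (|t - u| + |tJ - tK|) * |t - u| := by
    intro t u ht hu h0 hux
    obtain ⟨s, hs, he⟩ := mvt hFF hu ht
    rw [h0, sub_zero] at he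
    have hsρ := uIcc_abs hu ht hs
    have hsd := uIcc_dist hs
    rw [he, abs_mul, abs_mul]
    have h3 := (hw.rabs hsρ hξ).2
    have h4 : |φ s| ≤ C₀ := by
      rw [abs_of_pos (lt_of_lt_of_le hc (hw.lo s hsρ))]
      exact hw.hi s hsρ
    have h5 : |s - ξ| ≤ |t - u| + |tJ - tK| := by
      have := abs_sub_le s u ξ
      linarith
    have h6 : |φ s| * |r s - r ξ| ≤ C₀ * (C₀ * (|t - u| + |tJ - tK|)) :=
      mul_le_mul h4 (h3.trans (mul_le_mul_of_nonneg_left h5 hC0.le)) (abs_nonneg _) hC0.le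
    calc |φ s| * |r s - r ξ| * |t - u| ≤ C₀ * (C₀ * (|t - u| + |tJ - tK|)) * |t - u| :=
          mul_le_mul_of_nonneg_right h6 (abs_nonneg _)
      _ = _ := by ring
  have hupG : ∀ {t u : ℝ}, |t| ≤ ρ → |u| ≤ ρ → F u = 0 → |u - ξ| ≤ |tJ - tK| →
      |G t - G u| ≤ C₀ ^ 2 * (|t - u| + |tJ - tK|) * |t - u| ^ 2 := by
    intro t u ht hu h0 hux
    obtain ⟨s, hs, he⟩ := mvt hGF hu ht
    have hsρ := uIcc_abs hu ht hs
    have hsd := uIcc_dist hs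
    have h3 := hup hsρ hu h0 hux
    rw [he, abs_mul]
    have h4 : C₀ ^ 2 * (|s - u| + |tJ - tK|) * |s - u| ≤ C₀ ^ 2 * (|t - u| + |tJ - tK|) * |t - u| := by
      refine mul_le_mul (mul_le_mul_of_nonneg_left (by linarith) (by positivity)) hsd (abs_nonneg _) (by positivity)
    calc |F s| * |t - u| ≤ C₀ ^ 2 * (|t - u| + |tJ - tK|) * |t - u| * |t - u| :=
          mul_le_mul_of_nonneg_right (h3.trans h4) (abs_nonneg _)
      _ = _ := by ring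
  refine ⟨r ξ, α, β, h.rb ξ hξ, ?_, ?_, ?_⟩
  · intro t ht
    have h3 := hupG ht hK hFK hLA.2
    rw [hGK, sub_zero] at h3
    rw [hG] at h3
    exact h3
  · intro t ht
    have h3 := hupG ht hJ hFJ hLA.1
    rw [hG] at h3
    exact h3
  · intro x x' d D hx hx' hd0 hdD k1 k2 k3 k4 k5 k6
    obtain ⟨s, hs, he⟩ := mvt hGF hx' hx
    have hsρ := uIcc_abs hx' hx hs
    have h3 : D ≤ |s - tJ| := seg_side (by rw [mul_comm]; exact k5) k2 k1 hs
    have h4 : d ≤ |s - tK| := seg_side (by rw [mul_comm]; exact k6) k4 k3 hs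
    have h5 := hlow hsρ
    have e : (g x - r ξ * f x + α + β * x) - (g x' - r ξ * f x' + α + β * x') = F s * (x - x') := by
      rw [← he, hG]
    rw [e, abs_mul]
    refine mul_le_mul_of_nonneg_right (le_trans ?_ h5) (abs_nonneg _)
    have h6 : |tJ - tK| ≤ |s - tJ| + |s - tK| := by
      have := abs_sub_le tJ s tK
      rwa [abs_sub_comm tJ s] at this
    have h7 : |tJ - tK| * d ≤ 2 * (|s - tJ| * |s - tK|) := by
      rcases le_total (|tJ - tK| / 2) |s - tJ| with h8 | h8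
      · have := mul_le_mul h8 h4 hd0 (abs_nonneg _)
        linarith
      · have h9 : |tJ - tK| / 2 ≤ |s - tK| := by linarith
        have := mul_le_mul h9 (hdD.trans h3) hd0 (abs_nonneg _)
        linarith
    calc c ^ 3 / (4 * C₀) * (|tJ - tK| * d) ≤ c ^ 3 / (4 * C₀) * (2 * (|s - tJ| * |s - tK|)) :=
          mul_le_mul_of_nonneg_left h7 (by positivity)
      _ = c ^ 3 / (2 * C₀) * (|s - tJ| * |s - tK|) := by
          field_simp
          ring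

end Pool.Agent.Helper78.CG
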