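import Pool.Agent.Helper78.CG.B1
import Pool.Agent.Helper78.CE.B3

/-!
# CG-B2: positions and real inequalities
-/

open MeasureTheory Real Set Filter Topology

set_option autoImplicit false

namespace Pool.Agent.Helper78.CG

open Pool.Agent.Helper22.AE
open Pool.Agent.Helper92.GC
open Pool.Agent.Helper22.AC (sep)
open Pool.Agent.Helper78.CE (fl_pos dv_pos sep_gap sg)

theorem wid {K j : ℕ} (hK : 1 ≤ K) {x x' : ℝ} (hx : 0 ≤ x) (hx' : 0 ≤ x') (h : ⌊(K : ℝ) * (x / 12)⌋₊ = j)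
    (h' : ⌊(K : ℝ) * (x' / 12)⌋₊ = j) : |x - x'| ≤ 12 / K := by
  have hK0 : (0 : ℝ) < K := by exact_mod_cast hK
  have f1 := (Nat.floor_eq_iff (by positivity)).1 h
  have f2 := (Nat.floor_eq_iff (by positivity)).1 h'
  have h7 : |x - x'| * K = |(x - x') * K| := by rw [abs_mul, abs_of_pos hK0]
  rw [le_div_iff₀ hK0, h7, abs_le]
  constructor <;> linarith [f1.1, f1.2, f2.1, f2.2]

private theorem div_next {m : ℝ} (hm : 0 < m) (a : ℝ) (r : ℕ) : a / m ^ r = a / m ^ (r + 1) * m := by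
  rw [pow_succ]
  field_simp

private theorem same_sign {i j : ℕ} (h : sep i j) {w x x' t : ℝ} (hw : 0 < w) (h1 : (i : ℝ) * w ≤ x) (h2 : x < ((i : ℝ) + 1) * w)
    (h1' : (i : ℝ) * w ≤ x') (h2' : x' < ((i : ℝ) + 1) * w) (h3 : (j : ℝ) * w ≤ t) (h4 : t < ((j : ℝ) + 1) * w) :
    0 < (x - t) * (x' - t) := by
  rcases h with h | h
  · have h7 : (i : ℝ) + 2 ≤ j := by exact_mod_cast h
    have h8 : ((i : ℝ) + 2) * w ≤ j * w := mul_le_mul_of_nonneg_right h7 hw.le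
    exact mul_pos_of_neg_of_neg (by linarith) (by linarith)
  · have h7 : (j : ℝ) + 2 ≤ i := by exact_mod_cast h
    have h8 : ((j : ℝ) + 2) * w ≤ i * w := mul_le_mul_of_nonneg_right h7 hw.le
    exact mul_pos (by linarith) (by linarith)

/-- members of an arc lie in its ancestors -/
private theorem anc {M : ℕ} (hM : 1 ≤ M) {D : ℝ} (hD : 0 < D) {e i u : ℕ} {x : ℝ} (h : i / M ^ e = u)
    (h1 : (i : ℝ) / (M : ℝ) ^ e * D ≤ x) (h2 : x < ((i : ℝ) + 1) / (M : ℝ) ^ e * D) :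
    (u : ℝ) * D ≤ x ∧ x < ((u : ℝ) + 1) * D := by
  obtain ⟨a1, a2⟩ := dv_pos hM h
  exact ⟨(mul_le_mul_of_nonneg_right a1 hD.le).trans h1, lt_of_lt_of_le h2 (mul_le_mul_of_nonneg_right a2 hD.le)⟩

private theorem par {M : ℕ} (hM : 1 ≤ M) {D : ℝ} (hD : 0 < D) {e i u : ℕ} {x : ℝ} (h : i / M ^ (e + 1) = u)
    (h1 : (i : ℝ) / (M : ℝ) ^ e * D ≤ x) (h2 : x < ((i : ℝ) + 1) / (M : ℝ) ^ e * D) :
    (u : ℝ) * (M * D) ≤ x ∧ x < ((u : ℝ) + 1) * (M * D) := by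
  have hM0 : (0 : ℝ) < M := by exact_mod_cast hM
  obtain ⟨a1, a2⟩ := dv_pos hM h
  constructor
  · refine le_trans ?_ h1
    rw [div_next hM0]
    calc (u : ℝ) * (M * D) = u * M * D := by ring
      _ ≤ _ := mul_le_mul_of_nonneg_right (mul_le_mul_of_nonneg_right a1 hM0.le) hD.le
  · refine lt_of_lt_of_le h2 ?_
    rw [div_next hM0]
    calc ((i : ℝ) + 1) / (M : ℝ) ^ (e + 1) * M * D ≤ (u + 1) * M * D :=
          mul_le_mul_of_nonneg_right (mul_le_mul_of_nonneg_right a2 hM0.le) hD.le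
      _ = _ := by ring

private theorem same_par {W x t : ℝ} {u : ℕ} (h1 : (u : ℝ) * W ≤ x) (h2 : x < ((u : ℝ) + 1) * W)
    (h3 : (u : ℝ) * W ≤ t) (h4 : t < ((u : ℝ) + 1) * W) : |x - t| ≤ W := by
  rw [abs_le]
  constructor <;> linarith

theorem facts1 {M N b c i i' j : ℕ} (hM : 1 ≤ M) (hN : 1 ≤ N)
    (h1 : j / M ^ (b + 1) = i / M ^ (c + 1)) (h2 : i / M ^ c = i' / M ^ c) (h3 : sep (i / M ^ c) (j / M ^ b)) (h4 : sep i i')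
    {x x' z D : ℝ} (hD : D = 12 / (N * M)) (hx0 : 0 ≤ x) (hx0' : 0 ≤ x') (hz0 : 0 ≤ z)
    (fx : ⌊((N * M ^ (1 + c) : ℕ) : ℝ) * (x / 12)⌋₊ = i) (fx' : ⌊((N * M ^ (1 + c) : ℕ) : ℝ) * (x' / 12)⌋₊ = i')
    (fz : ⌊((N * M ^ (1 + b) : ℕ) : ℝ) * (z / 12)⌋₊ = j) :
    D ≤ |x - z| ∧ D ≤ |x' - z| ∧ |x' - z| ≤ M * D ∧ D / (M : ℝ) ^ c ≤ |x - x'| ∧ 0 < (x - z) * (x' - z) := by
  have hN0 : (0 : ℝ) < N := by exact_mod_cast hN
  have hM0 : (0 : ℝ) < M := by exact_mod_cast hM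
  have hD0 : 0 < D := by rw [hD]; positivity
  have hK : ∀ e : ℕ, ((N * M ^ (1 + e) : ℕ) : ℝ) * D = 12 * (M : ℝ) ^ e := by
    intro e
    rw [hD, pow_add]
    push_cast
    field_simp
  obtain ⟨a1, a2⟩ := fl_pos hD0 hM0 hx0 (hK c) fx
  obtain ⟨b1, b2⟩ := fl_pos hD0 hM0 hx0' (hK c) fx'
  obtain ⟨c1, c2⟩ := fl_pos hD0 hM0 hz0 (hK b) fz
  obtain ⟨u, hu⟩ : ∃ u, i / M ^ c = u := ⟨_, rfl⟩
  obtain ⟨v, hv⟩ : ∃ v, j / M ^ b = v := ⟨_, rfl⟩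
  obtain ⟨q, hq⟩ : ∃ q, i / M ^ (c + 1) = q := ⟨_, rfl⟩
  have hu' : i' / M ^ c = u := h2.symm.trans hu
  have hq' : i' / M ^ (c + 1) = q := by
    rw [pow_succ, ← Nat.div_div_eq_div_mul, ← h2, Nat.div_div_eq_div_mul, ← pow_succ, hq]
  have hqj : j / M ^ (b + 1) = q := h1.trans hq
  rw [hu, hv] at h3
  obtain ⟨d1, d2⟩ := anc hM hD0 hu a1 a2
  obtain ⟨d1', d2'⟩ := anc hM hD0 hu' b1 b2
  obtain ⟨e1, e2⟩ := anc hM hD0 hv c1 c2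
  obtain ⟨g1', g2'⟩ := par hM hD0 hq' b1 b2
  obtain ⟨k1, k2⟩ := par hM hD0 hqj c1 c2
  refine ⟨sep_gap h3 hD0 d1 d2 e1 e2, sep_gap h3 hD0 d1' d2' e1 e2, same_par g1' g2' k1 k2, ?_,
    same_sign h3 hD0 d1 d2 d1' d2' e1 e2⟩
  refine sep_gap h4 (by positivity) ?_ ?_ ?_ ?_
  · calc (i : ℝ) * (D / (M : ℝ) ^ c) = i / (M : ℝ) ^ c * D := by ring
      _ ≤ _ := a1
  · calc x < _ := a2
      _ = ((i : ℝ) + 1) * (D / (M : ℝ) ^ c) := by ring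
  · calc (i' : ℝ) * (D / (M : ℝ) ^ c) = i' / (M : ℝ) ^ c * D := by ring
      _ ≤ _ := b1
  · calc x' < _ := b2
      _ = ((i' : ℝ) + 1) * (D / (M : ℝ) ^ c) := by ring

theorem facts2 {M N b e p q i i' j k : ℕ} (hM : 1 ≤ M) (hN : 1 ≤ N)
    (h1 : j / M ^ (b + 1) = k / M ^ (e + 1 + p + 1)) (h2 : sep (k / M ^ (e + 1 + p)) (j / M ^ b))
    (h3 : k / M ^ (p + 1) = i / M ^ (q + 1)) (h4 : i / M ^ q = i' / M ^ q) (h5 : sep (i / M ^ q) (k / M ^ p)) (h6 : sep i i')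
    {x x' y z D d : ℝ} (hD : D = 12 / (N * M)) (hd : d = D / (M : ℝ) ^ (e + 1)) (hx0 : 0 ≤ x) (hx0' : 0 ≤ x') (hy0 : 0 ≤ y) (hz0 : 0 ≤ z)
    (fx : ⌊((N * M ^ (1 + (e + 1 + q)) : ℕ) : ℝ) * (x / 12)⌋₊ = i) (fx' : ⌊((N * M ^ (1 + (e + 1 + q)) : ℕ) : ℝ) * (x' / 12)⌋₊ = i')
    (fy : ⌊((N * M ^ (1 + (e + 1 + p)) : ℕ) : ℝ) * (y / 12)⌋₊ = k) (fz : ⌊((N * M ^ (1 + b) : ℕ) : ℝ) * (z / 12)⌋₊ = j) :
    (D ≤ |x - z| ∧ D ≤ |x' - z| ∧ D ≤ |y - z| ∧ |y - z| ≤ M * D) ∧ (d ≤ |x - y| ∧ d ≤ |x' - y| ∧ |x' - y| ≤ M * d) ∧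
      d / (M : ℝ) ^ q ≤ |x - x'| ∧ 0 < (x - z) * (x' - z) ∧ 0 < (x - y) * (x' - y) := by
  have hN0 : (0 : ℝ) < N := by exact_mod_cast hN
  have hM0 : (0 : ℝ) < M := by exact_mod_cast hM
  have hD0 : 0 < D := by rw [hD]; positivity
  have hd0 : 0 < d := by rw [hd]; positivity
  have hK : ∀ e : ℕ, ((N * M ^ (1 + e) : ℕ) : ℝ) * D = 12 * (M : ℝ) ^ e := by
    intro e
    rw [hD, pow_add]
    push_cast
    field_simp
  have conv : ∀ (a : ℝ) (r : ℕ), a / (M : ℝ) ^ (e + 1 + r) * D = a / (M : ℝ) ^ r * d := by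
    intro a r
    rw [hd, pow_add]
    field_simp
  obtain ⟨a1, a2⟩ := fl_pos hD0 hM0 hx0 (hK _) fx
  obtain ⟨b1, b2⟩ := fl_pos hD0 hM0 hx0' (hK _) fx'
  obtain ⟨c1, c2⟩ := fl_pos hD0 hM0 hy0 (hK _) fy
  obtain ⟨e1, e2⟩ := fl_pos hD0 hM0 hz0 (hK _) fz
  -- the integer data
  obtain ⟨I1, hI1⟩ : ∃ I1, i / M ^ q = I1 := ⟨_, rfl⟩
  have hI1' : i' / M ^ q = I1 := h4.symm.trans hI1
  obtain ⟨K1, hK1⟩ : ∃ K1, k / M ^ p = K1 := ⟨_, rfl⟩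
  obtain ⟨Q1, hQ1⟩ : ∃ Q1, k / M ^ (p + 1) = Q1 := ⟨_, rfl⟩
  have hQ1i : i / M ^ (q + 1) = Q1 := h3.symm.trans hQ1
  have hQ1i' : i' / M ^ (q + 1) = Q1 := by
    rw [pow_succ, ← Nat.div_div_eq_div_mul, ← h4, Nat.div_div_eq_div_mul, ← pow_succ, hQ1i]
  obtain ⟨U, hU⟩ : ∃ U, k / M ^ (e + 1 + p) = U := ⟨_, rfl⟩
  have hUi : i / M ^ (e + 1 + q) = U := by
    have e1 : M ^ (e + 1 + q) = M ^ (q + 1) * M ^ e := by rw [← pow_add]; congr 1; ring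
    have e2 : M ^ (e + 1 + p) = M ^ (p + 1) * M ^ e := by rw [← pow_add]; congr 1; ring
    rw [e1, ← Nat.div_div_eq_div_mul, ← h3, Nat.div_div_eq_div_mul, ← e2, hU]
  have hUi' : i' / M ^ (e + 1 + q) = U := by
    have e1 : M ^ (e + 1 + q) = M ^ (q + 1) * M ^ e := by rw [← pow_add]; congr 1; ring
    rw [e1, ← Nat.div_div_eq_div_mul, hQ1i', ← hQ1i, Nat.div_div_eq_div_mul, ← e1, hUi]
  obtain ⟨V, hV⟩ : ∃ V, j / M ^ b = V := ⟨_, rfl⟩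
  obtain ⟨G, hG⟩ : ∃ G, j / M ^ (b + 1) = G := ⟨_, rfl⟩
  have hGk : k / M ^ (e + 1 + p + 1) = G := h1.symm.trans hG
  rw [hU, hV] at h2
  rw [hI1, hK1] at h5
  -- level width `D`
  obtain ⟨p1, p2⟩ := anc hM hD0 hUi a1 a2
  obtain ⟨p1', p2'⟩ := anc hM hD0 hUi' b1 b2
  obtain ⟨q1, q2⟩ := anc hM hD0 hU c1 c2
  obtain ⟨r1, r2⟩ := anc hM hD0 hV e1 e2
  -- level width `M D`
  obtain ⟨s1, s2⟩ := par hM hD0 hGk c1 c2
  obtain ⟨t1, t2⟩ := par hM hD0 hG e1 e2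
  rw [conv] at a1 a2 b1 b2 c1 c2
  -- level width `d`
  obtain ⟨k1, k2⟩ := anc hM hd0 hI1 a1 a2
  obtain ⟨k1', k2'⟩ := anc hM hd0 hI1' b1 b2
  obtain ⟨l1, l2⟩ := anc hM hd0 hK1 c1 c2
  -- level width `M d`
  obtain ⟨n1', n2'⟩ := par hM hd0 hQ1i' b1 b2
  obtain ⟨o1, o2⟩ := par hM hd0 hQ1 c1 c2
  refine ⟨⟨sep_gap h2 hD0 p1 p2 r1 r2, sep_gap h2 hD0 p1' p2' r1 r2, sep_gap h2 hD0 q1 q2 r1 r2, same_par s1 s2 t1 t2⟩,
    ⟨sep_gap h5 hd0 k1 k2 l1 l2, sep_gap h5 hd0 k1' k2' l1 l2, same_par n1' n2' o1 o2⟩, ?_,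
    same_sign h2 hD0 p1 p2 p1' p2' r1 r2, same_sign h5 hd0 k1 k2 k1' k2' l1 l2⟩
  refine sep_gap h6 (by positivity) ?_ ?_ ?_ ?_
  · calc (i : ℝ) * (d / (M : ℝ) ^ q) = i / (M : ℝ) ^ q * d := by ring
      _ ≤ _ := a1
  · calc x < _ := a2
      _ = ((i : ℝ) + 1) * (d / (M : ℝ) ^ q) := by ring
  · calc (i' : ℝ) * (d / (M : ℝ) ^ q) = i' / (M : ℝ) ^ q * d := by ring
      _ ≤ _ := b1
  · calc x' < _ := b2
      _ = ((i' : ℝ) + 1) * (d / (M : ℝ) ^ q) := by ring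

theorem real1g {H m D ω g η u u' px px' R c₁ C₁ lam : ℝ} (hH : 0 < H) (hlam : 1 ≤ lam) (hC : 0 ≤ C₁) (hω : 0 < ω)
    (hu : H / lam ≤ u) (huu : |u - u'| ≤ η * H) (hη0 : 0 ≤ η) (hp : c₁ * (D ^ 2 * g) ≤ |px - px'|) (hc : 0 ≤ c₁)
    (hp' : |px'| ≤ C₁ * (m * D) ^ 3) (hgD : m * ω ^ 3 ≤ D ^ 2 * g) (hη : η * (m * D) ^ 3 ≤ ω ^ 3)
    (hR : |R| ≤ 10 * (lam * H * (C₁ * ω ^ 3))) (hm : lam * (1 + C₁ * (1 + 10 * lam)) ≤ c₁ * m) :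
    H * ω ^ 3 ≤ |u * px - u' * px' + R| := by
  have hlam0 : 0 < lam := by linarith
  have hu0 : 0 < u := lt_of_lt_of_le (by positivity) hu
  have e : u * px - u' * px' + R = u * (px - px') + ((u - u') * px' + R) := by ring
  rw [e]
  have h3 := abs_sub_abs_le_abs_sub (u * (px - px')) (-((u - u') * px' + R))
  rw [sub_neg_eq_add, abs_neg, abs_mul, abs_of_pos hu0] at h3
  have h4 := abs_add_le ((u - u') * px') R
  rw [abs_mul] at h4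
  have h5 : |u - u'| * |px'| ≤ C₁ * (H * ω ^ 3) := by
    calc |u - u'| * |px'| ≤ η * H * (C₁ * (m * D) ^ 3) := mul_le_mul huu hp' (abs_nonneg _) (by positivity)
      _ = C₁ * H * (η * (m * D) ^ 3) := by ring
      _ ≤ C₁ * H * ω ^ 3 := mul_le_mul_of_nonneg_left hη (by positivity)
      _ = _ := by ring
  have h6 : (1 + C₁ * (1 + 10 * lam)) * (H * ω ^ 3) ≤ u * |px - px'| := by
    have h7 : H / lam * (c₁ * (m * ω ^ 3)) ≤ u * |px - px'| := by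
      refine mul_le_mul hu (le_trans (mul_le_mul_of_nonneg_left hgD hc) hp) ?_ hu0.le
      have h8 : 0 ≤ lam * (1 + C₁ * (1 + 10 * lam)) := by positivity
      have h9 : 0 ≤ c₁ * m := h8.trans hm
      calc (0 : ℝ) ≤ (c₁ * m) * ω ^ 3 := by positivity
        _ = _ := by ring
    refine le_trans ?_ h7
    have h8 : lam * (1 + C₁ * (1 + 10 * lam)) * (H / lam * ω ^ 3) ≤ c₁ * m * (H / lam * ω ^ 3) :=
      mul_le_mul_of_nonneg_right hm (by positivity)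
    calc (1 + C₁ * (1 + 10 * lam)) * (H * ω ^ 3) = lam * (1 + C₁ * (1 + 10 * lam)) * (H / lam * ω ^ 3) := by field_simp
      _ ≤ _ := h8
      _ = _ := by ring
  have h7 : (1 + C₁ * (1 + 10 * lam)) * (H * ω ^ 3) = H * ω ^ 3 + C₁ * (H * ω ^ 3) + 10 * (lam * H * (C₁ * ω ^ 3)) := by ring
  linarith

theorem real2g {H m D d L ωK ωJ g η u u' px px' R c₁ C₁ lam : ℝ} (hH : 0 < H) (hlam : 1 ≤ lam) (hC : 0 ≤ C₁) (hm1 : 1 ≤ m)
    (hd : 0 < d) (hdD : d ≤ D) (hDL : D ≤ L) (hLD : L ≤ m * D) (hJ0 : 0 < ωJ) (hJK : ωJ ≤ ωK)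
    (hu : H / lam ≤ u) (huu : |u - u'| ≤ η * H) (hη0 : 0 ≤ η) (hc : 0 ≤ c₁) (hp : c₁ * (L * d) * g ≤ |px - px'|)
    (hp' : |px'| ≤ C₁ * (m * d + L) * (m * d) ^ 2) (hgd : m * ωK ^ 2 ≤ g * d) (hη : η * (m ^ 3 * D ^ 2) ≤ ωJ ^ 2)
    (hR : |R| ≤ 20 * lam * C₁ * (H * ωK ^ 2 * L) + 6 * η * H * C₁ * L ^ 3) (hm : lam * (1 + C₁ * (8 + 20 * lam)) ≤ c₁ * m) :
    H * ωK ^ 2 * L ≤ |u * px - u' * px' + R| := by
  have hlam0 : 0 < lam := by linarith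
  have hu0 : 0 < u := lt_of_lt_of_le (by positivity) hu
  have hD0 : 0 < D := by linarith
  have hL0 : 0 < L := by linarith
  have hK0 : 0 < ωK := by linarith
  have hm0 : 0 < m := by linarith
  have hJK2 : ωJ ^ 2 ≤ ωK ^ 2 := pow_le_pow_left₀ hJ0.le hJK 2
  have hW : 0 < H * ωK ^ 2 * L := by positivity
  have e : u * px - u' * px' + R = u * (px - px') + ((u - u') * px' + R) := by ring
  rw [e]
  have h3 := abs_sub_abs_le_abs_sub (u * (px - px')) (-((u - u') * px' + R))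
  rw [sub_neg_eq_add, abs_neg, abs_mul, abs_of_pos hu0] at h3
  have h4 := abs_add_le ((u - u') * px') R
  rw [abs_mul] at h4
  have h5 : |u - u'| * |px'| ≤ 2 * C₁ * (H * ωK ^ 2 * L) := by
    have h6 : m * d + L ≤ 2 * (m * D) := by
      have : m * d ≤ m * D := mul_le_mul_of_nonneg_left hdD hm0.le
      linarith
    have h7 : |px'| ≤ C₁ * (2 * (m * D)) * (m * d) ^ 2 :=
      hp'.trans (mul_le_mul_of_nonneg_right (mul_le_mul_of_nonneg_left h6 hC) (by positivity))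
    have h8 : η * (m ^ 3 * d ^ 2) ≤ ωK ^ 2 := by
      have h9 : d ^ 2 ≤ D ^ 2 := pow_le_pow_left₀ hd.le hdD 2
      have h10 : η * (m ^ 3 * d ^ 2) ≤ η * (m ^ 3 * D ^ 2) :=
        mul_le_mul_of_nonneg_left (mul_le_mul_of_nonneg_left h9 (by positivity)) hη0
      linarith
    calc |u - u'| * |px'| ≤ η * H * (C₁ * (2 * (m * D)) * (m * d) ^ 2) := mul_le_mul huu h7 (abs_nonneg _) (by positivity)
      _ = 2 * C₁ * H * D * (η * (m ^ 3 * d ^ 2)) := by ring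
      _ ≤ 2 * C₁ * H * D * ωK ^ 2 := mul_le_mul_of_nonneg_left h8 (by positivity)
      _ ≤ 2 * C₁ * H * L * ωK ^ 2 := by
          refine mul_le_mul_of_nonneg_right ?_ (by positivity)
          exact mul_le_mul_of_nonneg_left hDL (by positivity)
      _ = _ := by ring
  have h6 : 6 * η * H * C₁ * L ^ 3 ≤ 6 * C₁ * (H * ωK ^ 2 * L) := by
    have h7 : η * L ^ 2 ≤ ωK ^ 2 := by
      have h8 : L ^ 2 ≤ (m * D) ^ 2 := pow_le_pow_left₀ hL0.le hLD 2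
      have h9 : (m * D) ^ 2 ≤ m ^ 3 * D ^ 2 := by
        have : m ^ 3 * D ^ 2 = m * (m * D) ^ 2 := by ring
        rw [this]
        exact le_mul_of_one_le_left (by positivity) hm1
      have h10 : η * L ^ 2 ≤ η * (m ^ 3 * D ^ 2) := mul_le_mul_of_nonneg_left (h8.trans h9) hη0
      linarith
    calc 6 * η * H * C₁ * L ^ 3 = 6 * C₁ * H * L * (η * L ^ 2) := by ring
      _ ≤ 6 * C₁ * H * L * ωK ^ 2 := mul_le_mul_of_nonneg_left h7 (by positivity)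
      _ = _ := by ring
  have h7 : (1 + C₁ * (8 + 20 * lam)) * (H * ωK ^ 2 * L) ≤ u * |px - px'| := by
    have h8 : H / lam * (c₁ * L * (m * ωK ^ 2)) ≤ u * |px - px'| := by
      refine mul_le_mul hu ?_ (by positivity) hu0.le
      calc c₁ * L * (m * ωK ^ 2) ≤ c₁ * L * (g * d) := mul_le_mul_of_nonneg_left hgd (by positivity)
        _ = c₁ * (L * d) * g := by ring
        _ ≤ _ := hp
    refine le_trans ?_ h8
    have h9 : lam * (1 + C₁ * (8 + 20 * lam)) * (H / lam * ωK ^ 2 * L) ≤ c₁ * m * (H / lam * ωK ^ 2 * L) :=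
      mul_le_mul_of_nonneg_right hm (by positivity)
    calc (1 + C₁ * (8 + 20 * lam)) * (H * ωK ^ 2 * L) = lam * (1 + C₁ * (8 + 20 * lam)) * (H / lam * ωK ^ 2 * L) := by field_simp
      _ ≤ _ := h9
      _ = _ := by ring
  have h8 : (1 + C₁ * (8 + 20 * lam)) * (H * ωK ^ 2 * L) =
      H * ωK ^ 2 * L + 8 * C₁ * (H * ωK ^ 2 * L) + 20 * lam * C₁ * (H * ωK ^ 2 * L) := by ring
  linarith

/-- the linear identity -/
theorem lin12g {b R α β : ℝ} {f g : ℝ → ℝ} {x x' y₁ y₂ y₃ y₄ z₁ z₂ z₃ z₄ z₅ z₆ : ℤ × ℤ}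
    (hu : ∀ k ∈ ({x, x', y₁, y₂, y₃, y₄, z₁, z₂, z₃, z₄, z₅, z₆} : Finset (ℤ × ℤ)), 0 < uu b k)
    (hsum : x - x' + y₁ + y₂ - y₃ - y₄ + z₁ + z₂ + z₃ - z₄ - z₅ - z₆ = 0) :
    sg (fun k => uu b k * (g (tt b k) - R * f (tt b k) + α + β * tt b k)) x x' y₁ y₂ y₃ y₄ z₁ z₂ z₃ z₄ z₅ z₆ =
      sg (ff b g) x x' y₁ y₂ y₃ y₄ z₁ z₂ z₃ z₄ z₅ z₆ - R * sg (ff b f) x x' y₁ y₂ y₃ y₄ z₁ z₂ z₃ z₄ z₅ z₆ := by
  have key : ∀ k, 0 < uu b k → uu b k * (g (tt b k) - R * f (tt b k) + α + β * tt b k) =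
      ff b g k - R * ff b f k + α * uu b k + β * k.2 := by
    intro k hk
    have e1 : (k.2 : ℝ) = tt b k * uu b k := by rw [tt]; field_simp
    rw [e1, ff, ff]
    ring
  have hs1 : (x.1 : ℝ) - x'.1 + y₁.1 + y₂.1 - y₃.1 - y₄.1 + z₁.1 + z₂.1 + z₃.1 - z₄.1 - z₅.1 - z₆.1 = 0 := by
    have := congrArg Prod.fst hsum
    simp only [Prod.fst_sub, Prod.fst_add, Prod.fst_zero] at this
    exact_mod_cast this
  have hs2 : (x.2 : ℝ) - x'.2 + y₁.2 + y₂.2 - y₃.2 - y₄.2 + z₁.2 + z₂.2 + z₃.2 - z₄.2 - z₅.2 - z₆.2 = 0 := by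
    have := congrArg Prod.snd hsum
    simp only [Prod.snd_sub, Prod.snd_add, Prod.snd_zero] at this
    exact_mod_cast this
  simp only [sg]
  rw [key x (hu x (by simp)), key x' (hu x' (by simp)), key y₁ (hu y₁ (by simp)), key y₂ (hu y₂ (by simp)),
    key y₃ (hu y₃ (by simp)), key y₄ (hu y₄ (by simp)), key z₁ (hu z₁ (by simp)), key z₂ (hu z₂ (by simp)),
    key z₃ (hu z₃ (by simp)), key z₄ (hu z₄ (by simp)), key z₅ (hu z₅ (by simp)), key z₆ (hu z₆ (by simp))]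
  have hs3 : uu b x - uu b x' + uu b y₁ + uu b y₂ - uu b y₃ - uu b y₄ + uu b z₁ + uu b z₂ + uu b z₃ - uu b z₄ - uu b z₅ - uu b z₆ = 0 := by
    simp only [uu]
    linear_combination hs1 + b * hs2
  linear_combination β * hs2 + α * hs3

theorem fin12g {X₁ X₂ P Q R B tot L : ℝ} (h : tot = Q - R * P) (hR : |R| ≤ B) (hL : 1 / X₂ + B / X₁ ≤ L) (ht : L ≤ |tot|) :
    1 / X₁ ≤ |P| ∨ 1 / X₂ ≤ |Q| := by
  by_contra hcon
  push Not at hcon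
  obtain ⟨h1, h2⟩ := hcon
  have h3 : |tot| ≤ |Q| + |R| * |P| := by
    rw [h]
    have := abs_sub Q (R * P)
    rwa [abs_mul] at this
  have hB : 0 ≤ B := (abs_nonneg _).trans hR
  have h4 : |R| * |P| ≤ B * (1 / X₁) := mul_le_mul hR h1.le (abs_nonneg _) hB
  have h5 : B / X₁ = B * (1 / X₁) := by ring
  rw [h5] at hL
  linarith

end Pool.Agent.Helper78.CG
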