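import Pool.Agent.Helper78.CG.B2

/-!
# CG-B3: transversality for general curves
-/

open MeasureTheory Real Set Filter Topology

set_option autoImplicit false

namespace Pool.Agent.Helper78.CG

open Pool.Agent.Helper22.AE
open Pool.Agent.Helper92.GC
open Pool.Agent.Helper22.AC (sep)
open Pool.Agent.Helper78.CE (fl_pos dv_pos sep_gap sg mem_arc')

/-- the region: `H/lam ≤ u ≤ lam H`, `|t| ≤ ρ` -/
def Rg (b H lam ρ : ℝ) (B : Finset (ℤ × ℤ)) : Prop := ∀ k ∈ B, H / lam ≤ uu b k ∧ uu b k ≤ lam * H ∧ |tt b k| ≤ ρ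

private theorem pos_of {b H lam ρ : ℝ} {B : Finset (ℤ × ℤ)} (hH : 0 < H) (hlam : 1 ≤ lam) (hρ : ρ ≤ 5) (hB : Rg b H lam ρ B)
    {K j : ℕ} {k : ℤ × ℤ} (hk : k ∈ arc b B K j) :
    H / lam ≤ uu b k ∧ uu b k ≤ lam * H ∧ |tt b k| ≤ ρ ∧ 0 < uu b k ∧ 0 ≤ tt b k + 6 ∧ ⌊(K : ℝ) * ((tt b k + 6) / 12)⌋₊ = j := by
  rw [mem_arc'] at hk
  obtain ⟨h1, h2, h3⟩ := hB k hk.1
  have h4 : 0 < uu b k := lt_of_lt_of_le (by positivity) h1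
  refine ⟨h1, h2, h3, h4, ?_, hk.2⟩
  rw [abs_le] at h3
  linarith [h3.1]

private theorem ten_bd {A v1 v2 v3 v4 v5 v6 v7 v8 v9 v10 : ℝ} (h1 : |v1| ≤ A) (h2 : |v2| ≤ A) (h3 : |v3| ≤ A) (h4 : |v4| ≤ A)
    (h5 : |v5| ≤ A) (h6 : |v6| ≤ A) (h7 : |v7| ≤ A) (h8 : |v8| ≤ A) (h9 : |v9| ≤ A) (h10 : |v10| ≤ A) :
    |v1 + v2 - v3 - v4 + v5 + v6 + v7 - v8 - v9 - v10| ≤ 10 * A := by
  rw [abs_le] at h1 h2 h3 h4 h5 h6 h7 h8 h9 h10 ⊢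
  constructor
  · linarith [h1.1, h2.1, h3.2, h4.2, h5.1, h6.1, h7.1, h8.2, h9.2, h10.2]
  · linarith [h1.2, h2.2, h3.1, h4.1, h5.2, h6.2, h7.2, h8.1, h9.1, h10.1]

private theorem pow_width {N M b : ℕ} (hM : 1 ≤ M) (hN : 1 ≤ N) {D : ℝ} (hD : D = 12 / (N * M)) :
    12 / ((N * M ^ (1 + b) : ℕ) : ℝ) = D / (M : ℝ) ^ b := by
  have hN0 : (0 : ℝ) < N := by exact_mod_cast hN
  have hM0 : (0 : ℝ) < M := by exact_mod_cast hM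
  rw [hD, pow_add]
  push_cast
  field_simp

theorem geo1g {c C₀ lam ρ : ℝ} {M N b c' i i' j : ℕ} {β H X₁ X₂ η : ℝ} {B : Finset (ℤ × ℤ)} {f g r : ℝ → ℝ} (hc : 0 < c) (hlam : 1 ≤ lam)
    (hM : 1 ≤ M) (hMc : lam * (1 + C₀ ^ 2 * (1 + 10 * lam)) ≤ c ^ 2 / 2 * M) (hN : 1 ≤ N) (hcb : c' + 1 ≤ 3 * b)
    (hH : 0 < H) (hρ : ρ ≤ 5) (hB : Rg β H lam ρ B) (hcrv : Crv c C₀ ρ f g r)
    (hη : η ≤ (1 / (M : ℝ)) ^ (3 * b + 3)) (hX : 1 / X₂ + C₀ * ρ / X₁ ≤ H * (12 / (N * (M : ℝ) ^ (1 + b))) ^ 3)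
    (h1 : j / M ^ (b + 1) = i / M ^ (c' + 1)) (h2 : i / M ^ c' = i' / M ^ c') (h3 : sep (i / M ^ c') (j / M ^ b))
    (h4 : sep i i') {x x' y₁ y₂ y₃ y₄ z₁ z₂ z₃ z₄ z₅ z₆ : ℤ × ℤ}
    (hx : x ∈ arc β B (N * M ^ (1 + c')) i) (hx' : x' ∈ arc β B (N * M ^ (1 + c')) i')
    (hy₁ : y₁ ∈ arc β B (N * M ^ (1 + b)) j) (hy₂ : y₂ ∈ arc β B (N * M ^ (1 + b)) j)
    (hy₃ : y₃ ∈ arc β B (N * M ^ (1 + b)) j) (hy₄ : y₄ ∈ arc β B (N * M ^ (1 + b)) j)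
    (hz₁ : z₁ ∈ arc β B (N * M ^ (1 + b)) j) (hz₂ : z₂ ∈ arc β B (N * M ^ (1 + b)) j)
    (hz₃ : z₃ ∈ arc β B (N * M ^ (1 + b)) j) (hz₄ : z₄ ∈ arc β B (N * M ^ (1 + b)) j)
    (hz₅ : z₅ ∈ arc β B (N * M ^ (1 + b)) j) (hz₆ : z₆ ∈ arc β B (N * M ^ (1 + b)) j)
    (hsl : |uu β x - uu β x'| ≤ η * H)
    (hsum : x - x' + y₁ + y₂ - y₃ - y₄ + z₁ + z₂ + z₃ - z₄ - z₅ - z₆ = 0) :
    1 / X₁ ≤ |sg (ff β f) x x' y₁ y₂ y₃ y₄ z₁ z₂ z₃ z₄ z₅ z₆| ∨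
      1 / X₂ ≤ |sg (ff β g) x x' y₁ y₂ y₃ y₄ z₁ z₂ z₃ z₄ z₅ z₆| := by
  have hN0 : (0 : ℝ) < N := by exact_mod_cast hN
  have hM0 : (0 : ℝ) < M := by exact_mod_cast hM
  have hM1 : (1 : ℝ) ≤ M := by exact_mod_cast hM
  obtain ⟨D, hD⟩ : ∃ D : ℝ, D = 12 / (N * M) := ⟨_, rfl⟩
  have hD0 : 0 < D := by rw [hD]; positivity
  obtain ⟨ω, hω⟩ : ∃ ω, ω = D / (M : ℝ) ^ b := ⟨_, rfl⟩
  have hω0 : 0 < ω := by rw [hω]; positivity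
  obtain ⟨xu1, xu2, xt, xu, xθ, xf⟩ := pos_of hH hlam hρ hB hx
  obtain ⟨xu1', xu2', xt', xu', xθ', xf'⟩ := pos_of hH hlam hρ hB hx'
  obtain ⟨zu1, zu2, zt, zu, zθ, zf⟩ := pos_of hH hlam hρ hB hz₁
  obtain ⟨p1, p2, p3, p4, p5⟩ := facts1 hM hN h1 h2 h3 h4 hD xθ xθ' zθ xf xf' zf
  have e1 : ∀ a b : ℝ, (a + 6) - (b + 6) = a - b := fun a b => by ring
  rw [e1] at p1 p2 p3 p4
  rw [e1, e1] at p5
  obtain ⟨α, β', hup, hlow⟩ := crv1 hc hcrv zt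
  have hJ : ∀ {y : ℤ × ℤ}, y ∈ arc β B (N * M ^ (1 + b)) j → 0 < uu β y ∧
      |uu β y * (g (tt β y) - r (tt β z₁) * f (tt β y) + α + β' * tt β y)| ≤ lam * H * (C₀ ^ 2 * ω ^ 3) := by
    intro y hy
    obtain ⟨yu1, yu2, yt, yu, yθ, yf⟩ := pos_of hH hlam hρ hB hy
    have h5 := wid (K := N * M ^ (1 + b)) (Nat.one_le_iff_ne_zero.2 (Nat.mul_ne_zero (by omega) (pow_pos hM _).ne')) yθ zθ yf zf
    rw [e1, pow_width hM hN hD, ← hω] at h5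
    refine ⟨yu, ?_⟩
    rw [abs_mul, abs_of_pos yu]
    have h6 := hup (tt β y) yt
    have h7 : |tt β y - tt β z₁| ^ 3 ≤ ω ^ 3 := pow_le_pow_left₀ (abs_nonneg _) h5 3
    exact mul_le_mul yu2 (h6.trans (mul_le_mul_of_nonneg_left h7 (by positivity))) (abs_nonneg _) (by positivity)
  obtain ⟨uy₁, by₁⟩ := hJ hy₁
  obtain ⟨uy₂, by₂⟩ := hJ hy₂
  obtain ⟨uy₃, by₃⟩ := hJ hy₃
  obtain ⟨uy₄, by₄⟩ := hJ hy₄
  obtain ⟨uz₁, bz₁⟩ := hJ hz₁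
  obtain ⟨uz₂, bz₂⟩ := hJ hz₂
  obtain ⟨uz₃, bz₃⟩ := hJ hz₃
  obtain ⟨uz₄, bz₄⟩ := hJ hz₄
  obtain ⟨uz₅, bz₅⟩ := hJ hz₅
  obtain ⟨uz₆, bz₆⟩ := hJ hz₆
  have hlin := lin12g (b := β) (R := r (tt β z₁)) (α := α) (β := β') (f := f) (g := g) (x := x) (x' := x') (y₁ := y₁) (y₂ := y₂) (y₃ := y₃)
    (y₄ := y₄) (z₁ := z₁) (z₂ := z₂) (z₃ := z₃) (z₄ := z₄) (z₅ := z₅) (z₆ := z₆) (by
      intro k hk
      simp only [Finset.mem_insert, Finset.mem_singleton] at hk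
      rcases hk with rfl | rfl | rfl | rfl | rfl | rfl | rfl | rfl | rfl | rfl | rfl | rfl <;> assumption) hsum
  have hη0 : 0 ≤ η := nonneg_of_mul_nonneg_left ((abs_nonneg _).trans hsl) hH
  refine fin12g (B := C₀ * ρ) (L := H * ω ^ 3) hlin (hcrv.rb _ zt) ?_ ?_
  · refine hX.trans (le_of_eq ?_)
    rw [hω, hD, pow_add, pow_one]
    congr 2
    field_simp
  · have hR := ten_bd by₁ by₂ by₃ by₄ bz₁ bz₂ bz₃ bz₄ bz₅ bz₆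
    have hgD : (M : ℝ) * ω ^ 3 ≤ D ^ 2 * (D / (M : ℝ) ^ c') := by
      have h5 : (M : ℝ) ^ (c' + 1) ≤ ((M : ℝ) ^ b) ^ 3 := by
        rw [← pow_mul, mul_comm b 3]
        exact pow_le_pow_right₀ hM1 hcb
      have hmc : 0 < (M : ℝ) ^ c' := pow_pos hM0 c'
      have h6 : (M : ℝ) / ((M : ℝ) ^ b) ^ 3 ≤ 1 / (M : ℝ) ^ c' := by
        rw [div_le_div_iff₀ (by positivity) hmc, one_mul, mul_comm, ← pow_succ]
        exact h5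
      calc (M : ℝ) * ω ^ 3 = M / ((M : ℝ) ^ b) ^ 3 * D ^ 3 := by rw [hω, div_pow]; ring
        _ ≤ 1 / (M : ℝ) ^ c' * D ^ 3 := mul_le_mul_of_nonneg_right h6 (by positivity)
        _ = _ := by ring
    have hηD : η * (M * D) ^ 3 ≤ ω ^ 3 := by
      have e1 : (1 / (M : ℝ)) ^ (3 * b + 3) * (M : ℝ) ^ 3 = 1 / ((M : ℝ) ^ b) ^ 3 := by
        rw [pow_add, one_div, inv_pow, inv_pow, ← pow_mul, mul_comm b 3]
        field_simp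
      have e2 : η * (M : ℝ) ^ 3 ≤ 1 / ((M : ℝ) ^ b) ^ 3 := by
        rw [← e1]
        exact mul_le_mul_of_nonneg_right hη (by positivity)
      calc η * (M * D) ^ 3 = (η * (M : ℝ) ^ 3) * D ^ 3 := by ring
        _ ≤ (1 / ((M : ℝ) ^ b) ^ 3) * D ^ 3 := mul_le_mul_of_nonneg_right e2 (by positivity)
        _ = ω ^ 3 := by rw [hω, div_pow]; ring
    have hlo := hlow (tt β x) (tt β x') D xt xt' hD0.le p1 p2 p5
    have hp : c ^ 2 / 2 * (D ^ 2 * (D / (M : ℝ) ^ c')) ≤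
        |(g (tt β x) - r (tt β z₁) * f (tt β x) + α + β' * tt β x) - (g (tt β x') - r (tt β z₁) * f (tt β x') + α + β' * tt β x')| := by
      refine le_trans ?_ hlo
      calc c ^ 2 / 2 * (D ^ 2 * (D / (M : ℝ) ^ c')) = c ^ 2 / 2 * D ^ 2 * (D / (M : ℝ) ^ c') := by ring
        _ ≤ _ := mul_le_mul_of_nonneg_left p4 (by positivity)
    have hp' : |g (tt β x') - r (tt β z₁) * f (tt β x') + α + β' * tt β x'| ≤ C₀ ^ 2 * (M * D) ^ 3 :=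
      (hup _ xt').trans (mul_le_mul_of_nonneg_left (pow_le_pow_left₀ (abs_nonneg _) p3 3) (by positivity))
    have := real1g (H := H) (m := M) (D := D) (ω := ω) (g := D / (M : ℝ) ^ c') (η := η) (u := uu β x) (u' := uu β x')
      (c₁ := c ^ 2 / 2) (C₁ := C₀ ^ 2) hH hlam (by positivity) hω0 xu1 hsl hη0 hp (by positivity) hp' hgD hηD hR hMc
    refine this.trans (le_of_eq ?_)
    congr 1
    simp only [sg]
    ring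

set_option maxHeartbeats 8000000 in
theorem geo2g {c C₀ lam ρ : ℝ} {M N b e p q i i' j k : ℕ} {β H X₁ X₂ η : ℝ} {B : Finset (ℤ × ℤ)} {f g r : ℝ → ℝ} (hc : 0 < c) (hlam : 1 ≤ lam)
    (hM : 1 ≤ M) (hMc : lam * (1 + C₀ ^ 2 * (8 + 20 * lam)) ≤ c ^ 3 / (4 * C₀) * M) (hN : 1 ≤ N) (hqp : q + 1 ≤ 2 * p)
    (hpb : e + 1 + p ≤ b) (hH : 0 < H) (hρ : ρ ≤ 5) (hB : Rg β H lam ρ B) (hcrv : Crv c C₀ ρ f g r)
    (hη : η ≤ (1 / (M : ℝ)) ^ (2 * b + 3)) (hX : 1 / X₂ + C₀ * ρ / X₁ ≤ H * (12 / (N * (M : ℝ) ^ (1 + b))) ^ 3)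
    (h1 : j / M ^ (b + 1) = k / M ^ (e + 1 + p + 1)) (h2 : sep (k / M ^ (e + 1 + p)) (j / M ^ b))
    (h3 : k / M ^ (p + 1) = i / M ^ (q + 1)) (h4 : i / M ^ q = i' / M ^ q) (h5 : sep (i / M ^ q) (k / M ^ p)) (h6 : sep i i')
    {x x' y₁ y₂ y₃ y₄ z₁ z₂ z₃ z₄ z₅ z₆ : ℤ × ℤ}
    (hx : x ∈ arc β B (N * M ^ (1 + (e + 1 + q))) i) (hx' : x' ∈ arc β B (N * M ^ (1 + (e + 1 + q))) i')
    (hy₁ : y₁ ∈ arc β B (N * M ^ (1 + (e + 1 + p))) k) (hy₂ : y₂ ∈ arc β B (N * M ^ (1 + (e + 1 + p))) k)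
    (hy₃ : y₃ ∈ arc β B (N * M ^ (1 + (e + 1 + p))) k) (hy₄ : y₄ ∈ arc β B (N * M ^ (1 + (e + 1 + p))) k)
    (hz₁ : z₁ ∈ arc β B (N * M ^ (1 + b)) j) (hz₂ : z₂ ∈ arc β B (N * M ^ (1 + b)) j)
    (hz₃ : z₃ ∈ arc β B (N * M ^ (1 + b)) j) (hz₄ : z₄ ∈ arc β B (N * M ^ (1 + b)) j)
    (hz₅ : z₅ ∈ arc β B (N * M ^ (1 + b)) j) (hz₆ : z₆ ∈ arc β B (N * M ^ (1 + b)) j)
    (hsl : ∀ y ∈ B, ∀ y' ∈ B, |uu β y - uu β y'| ≤ η * H)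
    (hsum : x - x' + y₁ + y₂ - y₃ - y₄ + z₁ + z₂ + z₃ - z₄ - z₅ - z₆ = 0) :
    1 / X₁ ≤ |sg (ff β f) x x' y₁ y₂ y₃ y₄ z₁ z₂ z₃ z₄ z₅ z₆| ∨
      1 / X₂ ≤ |sg (ff β g) x x' y₁ y₂ y₃ y₄ z₁ z₂ z₃ z₄ z₅ z₆| := by
  have hN0 : (0 : ℝ) < N := by exact_mod_cast hN
  have hM0 : (0 : ℝ) < M := by exact_mod_cast hM
  have hM1 : (1 : ℝ) ≤ M := by exact_mod_cast hM
  obtain ⟨D, hD⟩ : ∃ D : ℝ, D = 12 / (N * M) := ⟨_, rfl⟩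
  have hD0 : 0 < D := by rw [hD]; positivity
  obtain ⟨d, hd⟩ : ∃ d, d = D / (M : ℝ) ^ (e + 1) := ⟨_, rfl⟩
  have hd0 : 0 < d := by rw [hd]; positivity
  obtain ⟨ωJ, hωJ⟩ : ∃ ω, ω = D / (M : ℝ) ^ b := ⟨_, rfl⟩
  have hωJ0 : 0 < ωJ := by rw [hωJ]; positivity
  obtain ⟨ωK, hωK⟩ : ∃ ω, ω = D / (M : ℝ) ^ (e + 1 + p) := ⟨_, rfl⟩
  have hωK0 : 0 < ωK := by rw [hωK]; positivity
  obtain ⟨xu1, xu2, xt, xu, xθ, xf⟩ := pos_of hH hlam hρ hB hx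
  obtain ⟨xu1', xu2', xt', xu', xθ', xf'⟩ := pos_of hH hlam hρ hB hx'
  obtain ⟨zu1, zu2, zt, zu, zθ, zf⟩ := pos_of hH hlam hρ hB hz₁
  obtain ⟨yu1, yu2, yt, yu, yθ, yf⟩ := pos_of hH hlam hρ hB hy₁
  obtain ⟨⟨p1, p2, p3, p4⟩, ⟨p5, p6, p7⟩, p8, p9, p10⟩ := facts2 hM hN h1 h2 h3 h4 h5 h6 hD hd xθ xθ' yθ zθ xf xf' yf zf
  have e1 : ∀ a b : ℝ, (a + 6) - (b + 6) = a - b := fun a b => by ring
  rw [e1] at p1 p2 p3 p4 p5 p6 p7 p8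
  rw [e1, e1] at p9 p10
  obtain ⟨L, hL⟩ : ∃ L, L = |tt β z₁ - tt β y₁| := ⟨_, rfl⟩
  have hL' : L = |tt β y₁ - tt β z₁| := by rw [hL, abs_sub_comm]
  rw [← hL'] at p3 p4
  have hL0 : 0 < L := by linarith
  have hne : tt β z₁ ≠ tt β y₁ := by
    intro h0
    rw [h0, sub_self, abs_zero] at hL
    linarith
  obtain ⟨R, α, β', hRb, hup1, hup2, hlow⟩ := crv2 hc hcrv zt yt hne
  simp only [← hL] at hup1 hup2 hlow
  obtain ⟨G, hG⟩ : ∃ G : ℝ → ℝ, G = fun t => g t - R * f t + α + β' * t := ⟨_, rfl⟩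
  have hG1 : ∀ t, |t| ≤ ρ → |G t| ≤ C₀ ^ 2 * (|t - tt β y₁| + L) * |t - tt β y₁| ^ 2 := by rw [hG]; exact hup1
  have hG2 : ∀ t, |t| ≤ ρ → |G t - G (tt β z₁)| ≤ C₀ ^ 2 * (|t - tt β z₁| + L) * |t - tt β z₁| ^ 2 := by rw [hG]; exact hup2
  have hcC : c ≤ C₀ := by
    obtain ⟨f1, g1, φ, hdd⟩ := hcrv.ex
    obtain ⟨-, -, -, -, h7, h8⟩ := hdd _ zt
    linarith
  have hC0 : 0 < C₀ := by linarith
  -- widths
  have kd : d ≤ D := by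
    rw [hd]
    exact div_le_self hD0.le (one_le_pow₀ hM1)
  have kJK : ωJ ≤ ωK := by
    rw [hωJ, hωK]
    exact div_le_div_of_nonneg_left hD0.le (pow_pos hM0 _) (pow_le_pow_right₀ hM1 hpb)
  have kKD : ωK ≤ D := by
    rw [hωK]
    exact div_le_self hD0.le (one_le_pow₀ hM1)
  have kKL : ωK ≤ L := kKD.trans p3
  have hKpos : ∀ a : ℕ, 1 ≤ N * M ^ a := fun a => Nat.one_le_iff_ne_zero.2 (Nat.mul_ne_zero (by omega) (pow_pos hM _).ne')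
  -- the points of `K`
  have hK : ∀ {y : ℤ × ℤ}, y ∈ arc β B (N * M ^ (1 + (e + 1 + p))) k → 0 < uu β y ∧
      |uu β y * G (tt β y)| ≤ 2 * lam * C₀ ^ 2 * (H * ωK ^ 2 * L) := by
    intro y hy
    obtain ⟨vu1, vu2, vt, vu, vθ, vf⟩ := pos_of hH hlam hρ hB hy
    have h7 := wid (hKpos _) vθ yθ vf yf
    rw [e1, pow_width hM hN hD, ← hωK] at h7
    refine ⟨vu, ?_⟩
    rw [abs_mul, abs_of_pos vu]
    have h8 := hG1 (tt β y) vt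
    have h9 : |tt β y - tt β y₁| ^ 2 ≤ ωK ^ 2 := pow_le_pow_left₀ (abs_nonneg _) h7 2
    have h10 : C₀ ^ 2 * (|tt β y - tt β y₁| + L) * |tt β y - tt β y₁| ^ 2 ≤ C₀ ^ 2 * (2 * L) * ωK ^ 2 :=
      mul_le_mul (mul_le_mul_of_nonneg_left (by linarith) (by positivity)) h9 (by positivity) (by positivity)
    calc uu β y * |G (tt β y)| ≤ lam * H * (C₀ ^ 2 * (2 * L) * ωK ^ 2) := mul_le_mul vu2 (h8.trans h10) (abs_nonneg _) (by positivity)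
      _ = _ := by ring
  -- the points of `J`
  have hJ : ∀ {y : ℤ × ℤ}, y ∈ arc β B (N * M ^ (1 + b)) j → 0 < uu β y ∧
      |uu β y * (G (tt β y) - G (tt β z₁))| ≤ 2 * lam * C₀ ^ 2 * (H * ωK ^ 2 * L) := by
    intro y hy
    obtain ⟨vu1, vu2, vt, vu, vθ, vf⟩ := pos_of hH hlam hρ hB hy
    have h7 := wid (hKpos _) vθ zθ vf zf
    rw [e1, pow_width hM hN hD, ← hωJ] at h7
    refine ⟨vu, ?_⟩
    rw [abs_mul, abs_of_pos vu]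
    have h8 := hG2 (tt β y) vt
    have h7' : |tt β y - tt β z₁| ≤ ωK := h7.trans kJK
    have h9 : |tt β y - tt β z₁| ^ 2 ≤ ωK ^ 2 := pow_le_pow_left₀ (abs_nonneg _) h7' 2
    have h10 : C₀ ^ 2 * (|tt β y - tt β z₁| + L) * |tt β y - tt β z₁| ^ 2 ≤ C₀ ^ 2 * (2 * L) * ωK ^ 2 :=
      mul_le_mul (mul_le_mul_of_nonneg_left (by linarith) (by positivity)) h9 (by positivity) (by positivity)
    calc uu β y * |G (tt β y) - G (tt β z₁)| ≤ lam * H * (C₀ ^ 2 * (2 * L) * ωK ^ 2) :=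
          mul_le_mul vu2 (h8.trans h10) (abs_nonneg _) (by positivity)
      _ = _ := by ring
  obtain ⟨uy₁, by₁⟩ := hK hy₁
  obtain ⟨uy₂, by₂⟩ := hK hy₂
  obtain ⟨uy₃, by₃⟩ := hK hy₃
  obtain ⟨uy₄, by₄⟩ := hK hy₄
  obtain ⟨uz₁, bz₁⟩ := hJ hz₁
  obtain ⟨uz₂, bz₂⟩ := hJ hz₂
  obtain ⟨uz₃, bz₃⟩ := hJ hz₃
  obtain ⟨uz₄, bz₄⟩ := hJ hz₄
  obtain ⟨uz₅, bz₅⟩ := hJ hz₅
  obtain ⟨uz₆, bz₆⟩ := hJ hz₆
  have hlin := lin12g (b := β) (R := R) (α := α) (β := β') (f := f) (g := g) (x := x) (x' := x') (y₁ := y₁) (y₂ := y₂) (y₃ := y₃)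
    (y₄ := y₄) (z₁ := z₁) (z₂ := z₂) (z₃ := z₃) (z₄ := z₄) (z₅ := z₅) (z₆ := z₆) (by
      intro k hk
      simp only [Finset.mem_insert, Finset.mem_singleton] at hk
      rcases hk with rfl | rfl | rfl | rfl | rfl | rfl | rfl | rfl | rfl | rfl | rfl | rfl <;> assumption) hsum
  have hGk : (fun k => uu β k * (g (tt β k) - R * f (tt β k) + α + β' * tt β k)) = fun k => uu β k * G (tt β k) := by
    rw [hG]
  rw [hGk] at hlin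
  have hsub : ∀ {K a : ℕ} {k : ℤ × ℤ}, k ∈ arc β B K a → k ∈ B := fun hk => (mem_arc'.1 hk).1
  have hslx := hsl x (hsub hx) x' (hsub hx')
  have hη0 : 0 ≤ η := nonneg_of_mul_nonneg_left ((abs_nonneg _).trans hslx) hH
  refine fin12g (B := C₀ * ρ) (L := H * ωJ ^ 3) hlin hRb ?_ ?_
  · refine hX.trans (le_of_eq ?_)
    rw [hωJ, hD, pow_add, pow_one]
    congr 2
    field_simp
  · obtain ⟨s, hs⟩ : ∃ s : ℝ, s = G (tt β z₁) := ⟨_, rfl⟩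
    have hsb : |s| ≤ 2 * C₀ ^ 2 * L ^ 3 := by
      have h7 := hG1 (tt β z₁) zt
      rw [← hs, ← hL] at h7
      refine h7.trans (le_of_eq ?_)
      ring
    have hc : |s * ((uu β z₁ - uu β z₄) + (uu β z₂ - uu β z₅) + (uu β z₃ - uu β z₆))| ≤ 6 * η * H * C₀ ^ 2 * L ^ 3 := by
      rw [abs_mul]
      have h7 := hsl z₁ (hsub hz₁) z₄ (hsub hz₄)
      have h8 := hsl z₂ (hsub hz₂) z₅ (hsub hz₅)
      have h9 := hsl z₃ (hsub hz₃) z₆ (hsub hz₆)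
      have h10 : |(uu β z₁ - uu β z₄) + (uu β z₂ - uu β z₅) + (uu β z₃ - uu β z₆)| ≤ 3 * (η * H) := by
        rw [abs_le] at h7 h8 h9 ⊢
        constructor <;> linarith [h7.1, h7.2, h8.1, h8.2, h9.1, h9.2]
      calc |s| * |(uu β z₁ - uu β z₄) + (uu β z₂ - uu β z₅) + (uu β z₃ - uu β z₆)| ≤ (2 * C₀ ^ 2 * L ^ 3) * (3 * (η * H)) :=
            mul_le_mul hsb h10 (abs_nonneg _) (by positivity)
        _ = _ := by ring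
    have hR := ten_bd by₁ by₂ by₃ by₄ bz₁ bz₂ bz₃ bz₄ bz₅ bz₆
    have hRR : |uu β y₁ * G (tt β y₁) + uu β y₂ * G (tt β y₂) - uu β y₃ * G (tt β y₃) - uu β y₄ * G (tt β y₄) +
        uu β z₁ * G (tt β z₁) + uu β z₂ * G (tt β z₂) + uu β z₃ * G (tt β z₃) - uu β z₄ * G (tt β z₄) - uu β z₅ * G (tt β z₅) -
        uu β z₆ * G (tt β z₆)| ≤ 20 * lam * C₀ ^ 2 * (H * ωK ^ 2 * L) + 6 * η * H * C₀ ^ 2 * L ^ 3 := by
      have e2 : uu β y₁ * G (tt β y₁) + uu β y₂ * G (tt β y₂) - uu β y₃ * G (tt β y₃) - uu β y₄ * G (tt β y₄) +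
          uu β z₁ * G (tt β z₁) + uu β z₂ * G (tt β z₂) + uu β z₃ * G (tt β z₃) - uu β z₄ * G (tt β z₄) - uu β z₅ * G (tt β z₅) -
          uu β z₆ * G (tt β z₆) =
          (uu β y₁ * G (tt β y₁) + uu β y₂ * G (tt β y₂) - uu β y₃ * G (tt β y₃) - uu β y₄ * G (tt β y₄) +
            uu β z₁ * (G (tt β z₁) - G (tt β z₁)) + uu β z₂ * (G (tt β z₂) - G (tt β z₁)) + uu β z₃ * (G (tt β z₃) - G (tt β z₁)) -
            uu β z₄ * (G (tt β z₄) - G (tt β z₁)) - uu β z₅ * (G (tt β z₅) - G (tt β z₁)) - uu β z₆ * (G (tt β z₆) - G (tt β z₁))) +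
          G (tt β z₁) * ((uu β z₁ - uu β z₄) + (uu β z₂ - uu β z₅) + (uu β z₃ - uu β z₆)) := by ring
      rw [e2]
      rw [hs] at hc
      refine (abs_add_le _ _).trans (add_le_add (hR.trans (le_of_eq ?_)) hc)
      ring
    have hgd : (M : ℝ) * ωK ^ 2 ≤ d / (M : ℝ) ^ q * d := by
      have h7 : (M : ℝ) ^ (q + 1) ≤ ((M : ℝ) ^ p) ^ 2 := by
        rw [← pow_mul, mul_comm p 2]
        exact pow_le_pow_right₀ hM1 hqp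
      have hmq : 0 < (M : ℝ) ^ q := pow_pos hM0 q
      have h8 : (M : ℝ) / ((M : ℝ) ^ p) ^ 2 ≤ 1 / (M : ℝ) ^ q := by
        rw [div_le_div_iff₀ (by positivity) hmq, one_mul, mul_comm, ← pow_succ]
        exact h7
      have h9 : ωK = d / (M : ℝ) ^ p := by
        rw [hωK, hd, pow_add]
        field_simp
      calc (M : ℝ) * ωK ^ 2 = M / ((M : ℝ) ^ p) ^ 2 * d ^ 2 := by rw [h9, div_pow]; ring
        _ ≤ 1 / (M : ℝ) ^ q * d ^ 2 := mul_le_mul_of_nonneg_right h8 (by positivity)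
        _ = d / (M : ℝ) ^ q * d := by ring
    have hηD : η * ((M : ℝ) ^ 3 * D ^ 2) ≤ ωJ ^ 2 := by
      have e1 : (1 / (M : ℝ)) ^ (2 * b + 3) * (M : ℝ) ^ 3 = 1 / ((M : ℝ) ^ b) ^ 2 := by
        rw [pow_add, one_div, inv_pow, inv_pow, ← pow_mul, mul_comm b 2]
        field_simp
      have e2 : η * (M : ℝ) ^ 3 ≤ 1 / ((M : ℝ) ^ b) ^ 2 := by
        rw [← e1]
        exact mul_le_mul_of_nonneg_right hη (by positivity)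
      calc η * ((M : ℝ) ^ 3 * D ^ 2) = (η * (M : ℝ) ^ 3) * D ^ 2 := by ring
        _ ≤ (1 / ((M : ℝ) ^ b) ^ 2) * D ^ 2 := mul_le_mul_of_nonneg_right e2 (by positivity)
        _ = ωJ ^ 2 := by rw [hωJ, div_pow]; ring
    have hlo := hlow (tt β x) (tt β x') d D xt xt' hd0.le kd p1 p2 p5 p6 p9 p10
    have hp : c ^ 3 / (4 * C₀) * (L * d) * (d / (M : ℝ) ^ q) ≤ |G (tt β x) - G (tt β x')| := by
      have h7 : c ^ 3 / (4 * C₀) * (L * d) * |tt β x - tt β x'| ≤ |G (tt β x) - G (tt β x')| := by rw [hG]; exact hlo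
      exact (mul_le_mul_of_nonneg_left p8 (by positivity)).trans h7
    have hp' : |G (tt β x')| ≤ C₀ ^ 2 * (M * d + L) * (M * d) ^ 2 := by
      refine (hG1 _ xt').trans ?_
      exact mul_le_mul (mul_le_mul_of_nonneg_left (by linarith) (by positivity)) (pow_le_pow_left₀ (abs_nonneg _) p7 2)
        (by positivity) (by positivity)
    have main := real2g (H := H) (m := M) (D := D) (d := d) (L := L) (ωK := ωK) (ωJ := ωJ) (g := d / (M : ℝ) ^ q) (η := η) (u := uu β x)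
      (u' := uu β x') (c₁ := c ^ 3 / (4 * C₀)) (C₁ := C₀ ^ 2) hH hlam (by positivity) hM1 hd0 kd p3 p4 hωJ0 kJK xu1 hslx hη0
      (by positivity) hp hp' hgd hηD hRR hMc
    have hfin : H * ωJ ^ 3 ≤ H * ωK ^ 2 * L := by
      have h7 : ωJ ^ 2 ≤ ωK ^ 2 := pow_le_pow_left₀ hωJ0.le kJK 2
      calc H * ωJ ^ 3 = H * (ωJ ^ 2 * ωJ) := by ring
        _ ≤ H * (ωK ^ 2 * L) := mul_le_mul_of_nonneg_left (mul_le_mul h7 (kJK.trans kKL) hωJ0.le (by positivity)) hH.le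
        _ = H * ωK ^ 2 * L := by ring
    refine (hfin.trans main).trans (le_of_eq ?_)
    congr 1
    simp only [sg]
    ring

end Pool.Agent.Helper78.CG
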