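import Pool.Agent.Helper78.CG.B3
import Pool.Agent.Helper78.CE.B5

/-!
# CG-B4: the cubic system of a thin slab, decoupling for a thin slab
-/

open MeasureTheory Real Set Filter Topology

set_option autoImplicit false

namespace Pool.Agent.Helper78.CG

open Pool.Agent.Helper22.AE
open Pool.Agent.Helper92.GC
open Pool.Agent.Helper22.AC (IsWt sep)
open Pool.Agent.Helper78.CD (n12 Bas Sys3)
open Pool.Agent.Helper78.CE (mem_arc' hs mu2 hs_cont hs_norm_le hs_split orth_hs mu2_prob)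

private lemma shift_div (M l b j₀ j : ℕ) (hM : 1 ≤ M) :
    (M ^ (l + b) * j₀ + j) / M ^ b = M ^ l * j₀ + j / M ^ b := by
  have h : M ^ (l + b) * j₀ + j = M ^ b * (M ^ l * j₀) + j := by
    rw [pow_add]
    ring
  rw [h, Nat.mul_add_div (pow_pos hM b)]

private lemma sep_shift {x i j : ℕ} (h : sep i j) : sep (x + i) (x + j) := by
  unfold Pool.Agent.Helper22.AC.sep at *
  omega

theorem sys_g {c C₀ lam ρ β H : ℝ} (hc : 0 < c) (hlam : 1 ≤ lam) (hH : 0 < H) (hρ : ρ ≤ 5) {M : ℕ} (hM : 1 ≤ M)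
    (hM1c : lam * (1 + C₀ ^ 2 * (1 + 10 * lam)) ≤ c ^ 2 / 2 * M) (hM2c : lam * (1 + C₀ ^ 2 * (8 + 20 * lam)) ≤ c ^ 3 / (4 * C₀) * M)
    {N m j₀ : ℕ} (hN : 1 ≤ N) {X₁ X₂ η : ℝ} {v w f g r : ℝ → ℝ} (hv : IsWt X₁ v) (hw : IsWt X₂ w) (a : ℤ × ℤ → ℂ) {B : Finset (ℤ × ℤ)}
    (hB : Rg β H lam ρ B) (hcrv : Crv c C₀ ρ f g r) (hslab : ∀ k ∈ B, ∀ k' ∈ B, |uu β k - uu β k'| ≤ η * H)
    (hη : η ≤ (1 / (M : ℝ)) ^ (3 * m + 3)) (hX : 1 / X₂ + C₀ * ρ / X₁ ≤ H * (12 / (N * (M : ℝ) ^ m)) ^ 3) :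
    Sys3 (mu2 v w) M m (fun s j => hs (arc β B (N * M ^ s) (M ^ s * j₀ + j)) a (ff β f) (ff β g)) := by
  have hMpos : (0 : ℝ) < M := by exact_mod_cast hM
  have hM1' : (1 : ℝ) ≤ M := by exact_mod_cast hM
  have hN0 : (0 : ℝ) < N := by exact_mod_cast hN
  have hsub : ∀ (N i : ℕ) (k : ℤ × ℤ), k ∈ arc β B N i → k ∈ B := fun N i k hk =>
    (mem_arc'.1 hk).1
  have hηb : ∀ e : ℕ, e ≤ 3 * m + 3 → η ≤ (1 / (M : ℝ)) ^ e := by
    intro e he
    refine hη.trans (pow_le_pow_of_le_one (by positivity) ?_ he)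
    rw [div_le_one hMpos]
    exact hM1'
  have hXb : ∀ l b : ℕ, l + 1 + b ≤ m → 1 / X₂ + C₀ * ρ / X₁ ≤ H * (12 / (((N * M ^ l : ℕ) : ℝ) * (M : ℝ) ^ (1 + b))) ^ 3 := by
    intro l b hlb
    refine hX.trans (mul_le_mul_of_nonneg_left ?_ hH.le)
    have h1 : ((N * M ^ l : ℕ) : ℝ) * (M : ℝ) ^ (1 + b) ≤ N * (M : ℝ) ^ m := by
      push_cast
      rw [mul_assoc, ← pow_add]
      exact mul_le_mul_of_nonneg_left (pow_le_pow_right₀ hM1' (by omega)) hN0.le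
    have h0 : 0 < ((N * M ^ l : ℕ) : ℝ) * (M : ℝ) ^ (1 + b) := by
      push_cast
      positivity
    have h2 : 12 / (N * (M : ℝ) ^ m) ≤ 12 / (((N * M ^ l : ℕ) : ℝ) * (M : ℝ) ^ (1 + b)) :=
      div_le_div_of_nonneg_left (by norm_num) h0 h1
    exact pow_le_pow_left₀ (by positivity) h2 3
  have hNl : ∀ l : ℕ, 1 ≤ N * M ^ l := fun l => Nat.one_le_iff_ne_zero.2 (Nat.mul_ne_zero (by omega) (pow_pos hM l).ne')
  have hlev : ∀ {l t J : ℕ} {y : ℤ × ℤ}, y ∈ arc β B (N * M ^ (l + 1 + t)) J → y ∈ arc β B (N * M ^ l * M ^ (1 + t)) J := by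
    intro l t J y hy
    have e1 : N * M ^ l * M ^ (1 + t) = N * M ^ (l + 1 + t) := by
      rw [mul_assoc, ← pow_add, add_assoc]
    rw [e1]
    exact hy
  refine ⟨⟨fun s j => (hs_cont _ a _ _).measurable, fun s j => ⟨_, hs_norm_le _ a _ _⟩, ?_⟩, ?_, ?_⟩
  · intro s _ j _ ω
    rw [hs_split a _ _ hM]
    refine Finset.sum_congr rfl fun r _ => ?_
    have e : M * (M ^ s * j₀ + j) + r = M ^ (s + 1) * j₀ + (M * j + r) := by
      rw [pow_succ]
      ring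
    have e2 : N * M ^ s * M = N * M ^ (s + 1) := by
      rw [mul_assoc, ← pow_succ]
    rw [e, e2]
  · intro l b c' hcb hlb hlc j hj i hi i' hi' hji hii hsep hs'
    have h10 : ∀ ω, ((‖hs (arc β B (N * M ^ (l + 1 + b)) (M ^ (l + 1 + b) * j₀ + j)) a (ff β f) (ff β g) ω‖ ^ 10 : ℝ) : ℂ) =
        ((‖hs (arc β B (N * M ^ (l + 1 + b)) (M ^ (l + 1 + b) * j₀ + j)) a (ff β f) (ff β g) ω‖ ^ 4 : ℝ) : ℂ) *
        ((‖hs (arc β B (N * M ^ (l + 1 + b)) (M ^ (l + 1 + b) * j₀ + j)) a (ff β f) (ff β g) ω‖ ^ 6 : ℝ) : ℂ) := by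
      intro ω
      rw [← Complex.ofReal_mul, ← pow_add]
    simp only [h10, ← mul_assoc]
    refine orth_hs hv hw ?_
    intro x hx x' hx' y₁ hy₁ y₂ hy₂ y₃ hy₃ y₄ hy₄ z₁ hz₁ z₂ hz₂ z₃ hz₃ z₄ hz₄ z₅ hz₅ z₆ hz₆ hsum
    refine geo1g (N := N * M ^ l) (b := b) (c' := c') (i := M ^ (l + 1 + c') * j₀ + i)
      (i' := M ^ (l + 1 + c') * j₀ + i') (j := M ^ (l + 1 + b) * j₀ + j) (η := η) hc hlam hM hM1c (hNl l) hcb hH hρ hB hcrv
      (hηb _ (by omega)) (hXb l b hlb) ?_ ?_ ?_ ?_ (hlev hx) (hlev hx') (hlev hy₁) (hlev hy₂)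
      (hlev hy₃) (hlev hy₄) (hlev hz₁) (hlev hz₂) (hlev hz₃) (hlev hz₄) (hlev hz₅) (hlev hz₆) ?_ hsum
    · have e1 := shift_div M l (b + 1) j₀ j hM
      have e2 := shift_div M l (c' + 1) j₀ i hM
      have e3 : l + (b + 1) = l + 1 + b := by ring
      have e4 : l + (c' + 1) = l + 1 + c' := by ring
      rw [e3] at e1
      rw [e4] at e2
      rw [e1, e2, hji]
    · rw [shift_div M (l + 1) c' j₀ i hM, shift_div M (l + 1) c' j₀ i' hM, hii]
    · rw [shift_div M (l + 1) c' j₀ i hM, shift_div M (l + 1) b j₀ j hM]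
      exact sep_shift hsep
    · exact sep_shift hs'
    · exact hslab x (hsub _ _ _ hx) x' (hsub _ _ _ hx')
  · intro l b d p q hqp hlb hpb hqb j hj k hk i hi i' hi' hjk hskj hki hii hsik hsii
    refine orth_hs hv hw ?_
    intro x hx x' hx' y₁ hy₁ y₂ hy₂ y₃ hy₃ y₄ hy₄ z₁ hz₁ z₂ hz₂ z₃ hz₃ z₄ hz₄ z₅ hz₅ z₆ hz₆ hsum
    refine geo2g (N := N * M ^ l) (b := b) (e := d) (p := p) (q := q) (i := M ^ (l + 1 + (d + 1 + q)) * j₀ + i)
      (i' := M ^ (l + 1 + (d + 1 + q)) * j₀ + i') (j := M ^ (l + 1 + b) * j₀ + j) (k := M ^ (l + 1 + (d + 1 + p)) * j₀ + k)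
      (η := η) hc hlam hM hM2c (hNl l) hqp hpb hH hρ hB hcrv
      (hηb _ (by omega)) (hXb l b hlb) ?_ ?_ ?_ ?_ ?_ ?_ (hlev hx) (hlev hx') (hlev hy₁) (hlev hy₂)
      (hlev hy₃) (hlev hy₄) (hlev hz₁) (hlev hz₂) (hlev hz₃) (hlev hz₄) (hlev hz₅) (hlev hz₆) hslab hsum
    · have e1 := shift_div M l (b + 1) j₀ j hM
      have e2 := shift_div M l (d + 1 + p + 1) j₀ k hM
      have e3 : l + (b + 1) = l + 1 + b := by ring
      have e4 : l + (d + 1 + p + 1) = l + 1 + (d + 1 + p) := by ring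
      rw [e3] at e1
      rw [e4] at e2
      rw [e1, e2, hjk]
    · rw [shift_div M (l + 1) (d + 1 + p) j₀ k hM, shift_div M (l + 1) b j₀ j hM]
      exact sep_shift hskj
    · have e1 := shift_div M (l + 1 + d) (p + 1) j₀ k hM
      have e2 := shift_div M (l + 1 + d) (q + 1) j₀ i hM
      have e3 : l + 1 + d + (p + 1) = l + 1 + (d + 1 + p) := by ring
      have e4 : l + 1 + d + (q + 1) = l + 1 + (d + 1 + q) := by ring
      rw [e3] at e1
      rw [e4] at e2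
      rw [e1, e2, hki]
    · have e1 := shift_div M (l + 1 + (d + 1)) q j₀ i hM
      have e2 := shift_div M (l + 1 + (d + 1)) q j₀ i' hM
      have e3 : l + 1 + (d + 1) + q = l + 1 + (d + 1 + q) := by ring
      rw [e3] at e1 e2
      rw [e1, e2, hii]
    · have e1 := shift_div M (l + 1 + (d + 1)) q j₀ i hM
      have e2 := shift_div M (l + 1 + (d + 1)) p j₀ k hM
      have e3 : l + 1 + (d + 1) + q = l + 1 + (d + 1 + q) := by ring
      have e4 : l + 1 + (d + 1) + p = l + 1 + (d + 1 + p) := by ring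
      rw [e3] at e1
      rw [e4] at e2
      rw [e1, e2]
      exact sep_shift hsik
    · exact sep_shift hsii

theorem arc_one_g {β : ℝ} {B : Finset (ℤ × ℤ)} (hB : ∀ k ∈ B, |tt β k| ≤ 5) : arc β B 1 0 = B := by
  classical
  unfold arc
  rw [Finset.filter_eq_self]
  intro k hk
  have h6 := abs_le.1 (hB k hk)
  rw [Nat.floor_eq_zero]
  push_cast
  linarith [h6.2]

/-- decoupling of a thin slab in `N₁` blocks of depth `m` -/
theorem slab_g {ε c C₀ lam : ℝ} (hε : 0 < ε) (hc : 0 < c) (hl : 1 ≤ lam) (hC₀ : 0 < C₀) : ∃ M : ℕ, 2 ≤ M ∧ ∃ C : ℝ, 1 ≤ C ∧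
    ∀ (m N₁ : ℕ) (β H ρ X₁ X₂ η : ℝ) (f g r v w : ℝ → ℝ) (a : ℤ × ℤ → ℂ) (B : Finset (ℤ × ℤ)), 0 < H → ρ ≤ 5 →
      Rg β H lam ρ B → Crv c C₀ ρ f g r → IsWt X₁ v → IsWt X₂ w → (∀ k ∈ B, ∀ k' ∈ B, |uu β k - uu β k'| ≤ η * H) →
      η ≤ (1 / (M : ℝ)) ^ (3 * m + 3) → 1 / X₂ + C₀ * ρ / X₁ ≤ H * (12 / (M : ℝ) ^ (N₁ * m)) ^ 3 →
      n12 (mu2 v w) (hs B a (ff β f) (ff β g)) ≤ C ^ N₁ * (M : ℝ) ^ (ε * ((N₁ * m : ℕ) : ℝ)) *
        ∑ r ∈ Finset.range (M ^ (N₁ * m)), n12 (mu2 v w) (hs (arc β B (M ^ (N₁ * m)) r) a (ff β f) (ff β g)) := by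
  obtain ⟨M0, hM0, hdec⟩ := Pool.Agent.Helper78.CD.decoupling hε
  obtain ⟨K₁, hK₁⟩ : ∃ K : ℕ, lam * (1 + C₀ ^ 2 * (1 + 10 * lam)) / (c ^ 2 / 2) ≤ K := exists_nat_ge _
  obtain ⟨K₂, hK₂⟩ : ∃ K : ℕ, lam * (1 + C₀ ^ 2 * (8 + 20 * lam)) / (c ^ 3 / (4 * C₀)) ≤ K := exists_nat_ge _
  obtain ⟨M, hMd⟩ : ∃ M : ℕ, M = max (max M0 2) (max K₁ K₂) := ⟨_, rfl⟩
  have hM2 : 2 ≤ M := by rw [hMd]; exact (le_max_right _ _).trans (le_max_left _ _)
  have hMM0 : M0 ≤ M := by rw [hMd]; exact (le_max_left _ _).trans (le_max_left _ _)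
  have hMK1 : K₁ ≤ M := by rw [hMd]; exact (le_max_left _ _).trans (le_max_right _ _)
  have hMK2 : K₂ ≤ M := by rw [hMd]; exact (le_max_right _ _).trans (le_max_right _ _)
  have hM1c : lam * (1 + C₀ ^ 2 * (1 + 10 * lam)) ≤ c ^ 2 / 2 * M := by
    rw [div_le_iff₀ (by positivity)] at hK₁
    have h1 : (K₁ : ℝ) ≤ M := by exact_mod_cast hMK1
    have h2 : (K₁ : ℝ) * (c ^ 2 / 2) ≤ M * (c ^ 2 / 2) := mul_le_mul_of_nonneg_right h1 (by positivity)
    linarith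
  have hM2c : lam * (1 + C₀ ^ 2 * (8 + 20 * lam)) ≤ c ^ 3 / (4 * C₀) * M := by
    rw [div_le_iff₀ (by positivity)] at hK₂
    have h1 : (K₂ : ℝ) ≤ M := by exact_mod_cast hMK2
    have h2 : (K₂ : ℝ) * (c ^ 3 / (4 * C₀)) ≤ M * (c ^ 3 / (4 * C₀)) := mul_le_mul_of_nonneg_right h1 (by positivity)
    linarith
  obtain ⟨C, hC, hd⟩ := hdec M hMM0
  refine ⟨M, hM2, C, hC, ?_⟩
  intro m N₁ β H ρ X₁ X₂ η f g r v w a B hH hρ hB hcrv hv hw hslab hη hX
  have hM1 : 1 ≤ M := by omega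
  have hMr : (1 : ℝ) ≤ M := by exact_mod_cast hM1
  have hMpos : (0 : ℝ) < M := by linarith
  have hprob := mu2_prob hv hw
  have key : ∀ i : ℕ, i ≤ N₁ → n12 (mu2 v w) (hs B a (ff β f) (ff β g)) ≤
      C ^ i * (M : ℝ) ^ (ε * ((i * m : ℕ) : ℝ)) *
        ∑ r ∈ Finset.range (M ^ (i * m)), n12 (mu2 v w) (hs (arc β B (M ^ (i * m)) r) a (ff β f) (ff β g)) := by
    intro i
    induction i with
    | zero =>
      intro _
      have h1 := arc_one_g (β := β) (B := B) (fun k hk => ((hB k hk).2.2).trans hρ)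
      simp [h1]
    | succ i ih =>
      intro hi
      have h1 := ih (by omega)
      refine h1.trans ?_
      have hlev : i * m + m ≤ N₁ * m := by
        have h2 : (i + 1) * m ≤ N₁ * m := Nat.mul_le_mul_right m hi
        rwa [Nat.succ_mul] at h2
      have hstep : ∀ s : ℕ, n12 (mu2 v w) (hs (arc β B (M ^ (i * m)) s) a (ff β f) (ff β g)) ≤
          C * (M : ℝ) ^ (ε * (m : ℝ)) * ∑ r' ∈ Finset.range (M ^ m),
            n12 (mu2 v w) (hs (arc β B (M ^ ((i + 1) * m)) (M ^ m * s + r')) a (ff β f) (ff β g)) := by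
        intro s
        have hX' : 1 / X₂ + C₀ * ρ / X₁ ≤ H * (12 / (((M ^ (i * m) : ℕ) : ℝ) * (M : ℝ) ^ m)) ^ 3 := by
          refine hX.trans (mul_le_mul_of_nonneg_left ?_ hH.le)
          have h2 : ((M ^ (i * m) : ℕ) : ℝ) * (M : ℝ) ^ m ≤ (M : ℝ) ^ (N₁ * m) := by
            push_cast
            rw [← pow_add]
            exact pow_le_pow_right₀ hMr hlev
          have h3 : (0 : ℝ) < ((M ^ (i * m) : ℕ) : ℝ) * (M : ℝ) ^ m := by
            push_cast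
            positivity
          have h4 : 12 / (M : ℝ) ^ (N₁ * m) ≤ 12 / (((M ^ (i * m) : ℕ) : ℝ) * (M : ℝ) ^ m) :=
            div_le_div_of_nonneg_left (by norm_num) h3 h2
          exact pow_le_pow_left₀ (by positivity) h4 3
        have h2 := hd _ (mu2 v w) m _ (sys_g hc hl hH hρ hM1 hM1c hM2c (N := M ^ (i * m)) (m := m) (j₀ := s)
          (Nat.one_le_iff_ne_zero.2 (pow_pos hM1 _).ne') hv hw a hB hcrv hslab hη hX')
        simp only [add_zero, pow_zero, one_mul, mul_one] at h2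
        have e : M ^ (i * m) * M ^ m = M ^ ((i + 1) * m) := by
          rw [← pow_add, Nat.succ_mul]
        rw [e] at h2
        exact h2
      calc C ^ i * (M : ℝ) ^ (ε * ((i * m : ℕ) : ℝ)) * ∑ r ∈ Finset.range (M ^ (i * m)),
              n12 (mu2 v w) (hs (arc β B (M ^ (i * m)) r) a (ff β f) (ff β g))
          ≤ C ^ i * (M : ℝ) ^ (ε * ((i * m : ℕ) : ℝ)) * ∑ r ∈ Finset.range (M ^ (i * m)),
              (C * (M : ℝ) ^ (ε * (m : ℝ)) * ∑ r' ∈ Finset.range (M ^ m),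
                n12 (mu2 v w) (hs (arc β B (M ^ ((i + 1) * m)) (M ^ m * r + r')) a (ff β f) (ff β g))) := by
            apply mul_le_mul_of_nonneg_left (Finset.sum_le_sum fun r _ => hstep r)
            positivity
        _ = C ^ (i + 1) * (M : ℝ) ^ (ε * (((i + 1) * m : ℕ) : ℝ)) *
              ∑ r ∈ Finset.range (M ^ (i * m)), ∑ r' ∈ Finset.range (M ^ m),
                n12 (mu2 v w) (hs (arc β B (M ^ ((i + 1) * m)) (M ^ m * r + r')) a (ff β f) (ff β g)) := by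
            rw [← Finset.mul_sum, pow_succ]
            have h3 : (M : ℝ) ^ (ε * (((i + 1) * m : ℕ) : ℝ)) =
                (M : ℝ) ^ (ε * ((i * m : ℕ) : ℝ)) * (M : ℝ) ^ (ε * (m : ℝ)) := by
              rw [← Real.rpow_add hMpos]
              congr 1
              push_cast
              ring
            rw [h3]
            ring
        _ = _ := by
            congr 1
            have h4 : M ^ ((i + 1) * m) = M ^ (i * m) * M ^ m := by
              rw [← pow_add, Nat.succ_mul]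
            rw [show Finset.range (M ^ ((i + 1) * m)) = Finset.range (M ^ (i * m) * M ^ m) by
              rw [h4], Pool.Agent.Helper22.AC.sum_range_mul']
  exact key N₁ le_rfl

end Pool.Agent.Helper78.CG
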