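import Pool.Agent.Helper78.CG.B3
import Pool.Agent.Helper78.CE.B5
import Pool.Agent.Helper92.GC.T1
import Pool.Agent.Helper22.AC.A7

/-!
# CG-C1: exponent 6 for curves `(1, t, f)`: transversality, thin slabs
-/

open MeasureTheory Real Set Filter Topology

set_option autoImplicit false

namespace Pool.Agent.Helper78.CG

open Pool.Agent.Helper22.AE
open Pool.Agent.Helper92.GC
open Pool.Agent.Helper22.AC (n6 IsWt mu sep Sys)
open Pool.Agent.Helper78.CE (mem_arc')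

theorem crv6 {c C₀ ρ : ℝ} {f : ℝ → ℝ} (hc : 0 < c) (h : Crv6 c C₀ ρ f) {tJ : ℝ} (hJ : |tJ| ≤ ρ) :
    ∃ α β : ℝ, (∀ t, |t| ≤ ρ → |f t + α + β * t| ≤ C₀ * |t - tJ| ^ 2) ∧
      ∀ x x' d : ℝ, |x| ≤ ρ → |x'| ≤ ρ → 0 ≤ d → d ≤ |x - tJ| → d ≤ |x' - tJ| → 0 < (x - tJ) * (x' - tJ) →
        c * d * |x - x'| ≤ |(f x + α + β * x) - (f x' + α + β * x')| := by
  obtain ⟨f1, φ, hd⟩ := h.ex
  have hC0 : 0 < C₀ := by
    obtain ⟨-, -, h1, h2⟩ := hd tJ hJ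
    linarith
  obtain ⟨β, hβ⟩ : ∃ β, β = -(f1 tJ) := ⟨_, rfl⟩
  obtain ⟨α, hα⟩ : ∃ α, α = -(f tJ) - β * tJ := ⟨_, rfl⟩
  obtain ⟨G, hG⟩ : ∃ G : ℝ → ℝ, G = fun t => f t + α + β * t := ⟨_, rfl⟩
  obtain ⟨F, hF⟩ : ∃ F : ℝ → ℝ, F = fun t => f1 t + β := ⟨_, rfl⟩
  have hGF : ∀ t, |t| ≤ ρ → HasDerivAt G (F t) t := by
    intro t ht
    obtain ⟨d1, d2, -⟩ := hd t ht
    rw [hG, hF]
    have h1 := (d1.add_const α).fun_add ((hasDerivAt_id' t).const_mul β)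
    simpa using h1
  have hFF : ∀ t, |t| ≤ ρ → HasDerivAt F (φ t) t := by
    intro t ht
    obtain ⟨d1, d2, -⟩ := hd t ht
    rw [hF]
    exact d2.add_const β
  have hG0 : G tJ = 0 := by rw [hG]; simp only; rw [hα]; ring
  have hF0 : F tJ = 0 := by rw [hF]; simp only; rw [hβ]; ring
  have hFb : ∀ t, |t| ≤ ρ → c * |t - tJ| ≤ |F t| ∧ |F t| ≤ C₀ * |t - tJ| := by
    intro t ht
    obtain ⟨s, hs, he⟩ := mvt hFF hJ ht
    rw [hF0, sub_zero] at he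
    obtain ⟨-, -, h1, h2⟩ := hd s (uIcc_abs hJ ht hs)
    rw [he, abs_mul, abs_of_pos (lt_of_lt_of_le hc h1)]
    exact ⟨mul_le_mul_of_nonneg_right h1 (abs_nonneg _), mul_le_mul_of_nonneg_right h2 (abs_nonneg _)⟩
  refine ⟨α, β, ?_, ?_⟩
  · intro t ht
    obtain ⟨s, hs, he⟩ := mvt hGF hJ ht
    have h1 := (hFb s (uIcc_abs hJ ht hs)).2
    have h2 := uIcc_dist hs
    have e : f t + α + β * t = F s * (t - tJ) := by
      rw [← he, hG0, hG]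
      simp
    rw [e, abs_mul]
    calc |F s| * |t - tJ| ≤ (C₀ * |t - tJ|) * |t - tJ| :=
          mul_le_mul_of_nonneg_right (h1.trans (mul_le_mul_of_nonneg_left h2 hC0.le)) (abs_nonneg _)
      _ = _ := by ring
  · intro x x' d hx hx' hd0 h1 h2 h3
    obtain ⟨s, hs, he⟩ := mvt hGF hx' hx
    have h4 : d ≤ |s - tJ| := seg_side (by rw [mul_comm]; exact h3) h2 h1 hs
    have h5 := (hFb s (uIcc_abs hx' hx hs)).1
    have e : (f x + α + β * x) - (f x' + α + β * x') = F s * (x - x') := by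
      rw [← he, hG]
    rw [e, abs_mul]
    refine mul_le_mul_of_nonneg_right ?_ (abs_nonneg _)
    exact (mul_le_mul_of_nonneg_left h4 hc.le).trans h5

private theorem pos_of {b H lam ρ : ℝ} {B : Finset (ℤ × ℤ)} (hH : 0 < H) (hlam : 1 ≤ lam) (hρ : ρ ≤ 5) (hB : Rg b H lam ρ B)
    {K j : ℕ} {k : ℤ × ℤ} (hk : k ∈ arc b B K j) :
    H / lam ≤ uu b k ∧ uu b k ≤ lam * H ∧ |tt b k| ≤ ρ ∧ 0 < uu b k ∧ 0 ≤ tt b k + 6 ∧ ⌊(K : ℝ) * ((tt b k + 6) / 12)⌋₊ = j := by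
  rw [mem_arc'] at hk
  obtain ⟨h1, h2, h3⟩ := hB k hk.1
  have h4 : 0 < uu b k := lt_of_lt_of_le (by positivity) h1
  refine ⟨h1, h2, h3, h4, ?_, hk.2⟩
  rw [abs_le] at h3
  linarith [h3.1]

theorem geo6 {c C₀ lam ρ : ℝ} {M N b c' i i' j : ℕ} {β H X η : ℝ} {B : Finset (ℤ × ℤ)} {f : ℝ → ℝ} (hc : 0 < c) (hlam : 1 ≤ lam)
    (hM : 1 ≤ M) (hMc : lam * (1 + C₀ * (1 + 4 * lam)) ≤ c * M) (hN : 1 ≤ N) (hcb : c' + 1 ≤ 2 * b)
    (hH : 0 < H) (hρ : ρ ≤ 5) (hB : Rg β H lam ρ B) (hcrv : Crv6 c C₀ ρ f)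
    (hη : η ≤ (1 / (M : ℝ)) ^ (2 * b + 2)) (hX : 1 / X ≤ H * (12 / (N * (M : ℝ) ^ (1 + b))) ^ 2)
    (h1 : j / M ^ (b + 1) = i / M ^ (c' + 1)) (h2 : i / M ^ c' = i' / M ^ c') (h3 : sep (i / M ^ c') (j / M ^ b))
    (h4 : sep i i') {x x' y₁ y₂ y₃ y₄ : ℤ × ℤ}
    (hx : x ∈ arc β B (N * M ^ (1 + c')) i) (hx' : x' ∈ arc β B (N * M ^ (1 + c')) i')
    (hy₁ : y₁ ∈ arc β B (N * M ^ (1 + b)) j) (hy₂ : y₂ ∈ arc β B (N * M ^ (1 + b)) j)
    (hy₃ : y₃ ∈ arc β B (N * M ^ (1 + b)) j) (hy₄ : y₄ ∈ arc β B (N * M ^ (1 + b)) j)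
    (hsl : |uu β x - uu β x'| ≤ η * H) (hsum : x - x' + y₁ + y₂ - y₃ - y₄ = 0) :
    1 / X ≤ |ff β f x - ff β f x' + ff β f y₁ + ff β f y₂ - ff β f y₃ - ff β f y₄| := by
  have hN0 : (0 : ℝ) < N := by exact_mod_cast hN
  have hM0 : (0 : ℝ) < M := by exact_mod_cast hM
  have hM1 : (1 : ℝ) ≤ M := by exact_mod_cast hM
  have hlam0 : 0 < lam := by linarith
  obtain ⟨D, hD⟩ : ∃ D : ℝ, D = 12 / (N * M) := ⟨_, rfl⟩
  have hD0 : 0 < D := by rw [hD]; positivity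
  obtain ⟨ω, hω⟩ : ∃ ω, ω = D / (M : ℝ) ^ b := ⟨_, rfl⟩
  have hω0 : 0 < ω := by rw [hω]; positivity
  obtain ⟨xu1, xu2, xt, xu, xθ, xf⟩ := pos_of hH hlam hρ hB hx
  obtain ⟨xu1', xu2', xt', xu', xθ', xf'⟩ := pos_of hH hlam hρ hB hx'
  obtain ⟨zu1, zu2, zt, zu, zθ, zf⟩ := pos_of hH hlam hρ hB hy₁
  obtain ⟨p1, p2, p3, p4, p5⟩ := facts1 hM hN h1 h2 h3 h4 hD xθ xθ' zθ xf xf' zf
  have e1 : ∀ a b : ℝ, (a + 6) - (b + 6) = a - b := fun a b => by ring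
  rw [e1] at p1 p2 p3 p4
  rw [e1, e1] at p5
  obtain ⟨α, β', hup, hlow⟩ := crv6 hc hcrv zt
  have hC0 : 0 < C₀ := by
    obtain ⟨f1, φ, hd⟩ := hcrv.ex
    obtain ⟨-, -, h1, h2⟩ := hd _ zt
    linarith
  have hw : 12 / ((N * M ^ (1 + b) : ℕ) : ℝ) = ω := by
    rw [hω, hD, pow_add]
    push_cast
    field_simp
  have hJ : ∀ {y : ℤ × ℤ}, y ∈ arc β B (N * M ^ (1 + b)) j → 0 < uu β y ∧
      |uu β y * (f (tt β y) + α + β' * tt β y)| ≤ lam * H * (C₀ * ω ^ 2) := by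
    intro y hy
    obtain ⟨yu1, yu2, yt, yu, yθ, yf⟩ := pos_of hH hlam hρ hB hy
    have h5 := wid (K := N * M ^ (1 + b)) (Nat.one_le_iff_ne_zero.2 (Nat.mul_ne_zero (by omega) (pow_pos hM _).ne')) yθ zθ yf zf
    rw [e1, hw] at h5
    refine ⟨yu, ?_⟩
    rw [abs_mul, abs_of_pos yu]
    have h6 := hup (tt β y) yt
    have h7 : |tt β y - tt β y₁| ^ 2 ≤ ω ^ 2 := pow_le_pow_left₀ (abs_nonneg _) h5 2
    exact mul_le_mul yu2 (h6.trans (mul_le_mul_of_nonneg_left h7 hC0.le)) (abs_nonneg _) (by positivity)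
  obtain ⟨uy₁, by₁⟩ := hJ hy₁
  obtain ⟨uy₂, by₂⟩ := hJ hy₂
  obtain ⟨uy₃, by₃⟩ := hJ hy₃
  obtain ⟨uy₄, by₄⟩ := hJ hy₄
  have key : ∀ k, 0 < uu β k → uu β k * (f (tt β k) + α + β' * tt β k) = ff β f k + α * uu β k + β' * k.2 := by
    intro k hk
    have e1 : (k.2 : ℝ) = tt β k * uu β k := by rw [tt]; field_simp
    rw [e1, ff]
    ring
  have hs1 : (x.1 : ℝ) - x'.1 + y₁.1 + y₂.1 - y₃.1 - y₄.1 = 0 := by
    have := congrArg Prod.fst hsum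
    simp only [Prod.fst_sub, Prod.fst_add, Prod.fst_zero] at this
    exact_mod_cast this
  have hs2 : (x.2 : ℝ) - x'.2 + y₁.2 + y₂.2 - y₃.2 - y₄.2 = 0 := by
    have := congrArg Prod.snd hsum
    simp only [Prod.snd_sub, Prod.snd_add, Prod.snd_zero] at this
    exact_mod_cast this
  have hs3 : uu β x - uu β x' + uu β y₁ + uu β y₂ - uu β y₃ - uu β y₄ = 0 := by
    simp only [uu]
    linear_combination hs1 + β * hs2
  obtain ⟨P, hP⟩ : ∃ P : ℤ × ℤ → ℝ, P = fun k => f (tt β k) + α + β' * tt β k := ⟨_, rfl⟩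
  have key' : ∀ k, 0 < uu β k → ff β f k = uu β k * P k - α * uu β k - β' * k.2 := by
    intro k hk
    rw [hP]
    have := key k hk
    simp only
    linarith
  have htot : ff β f x - ff β f x' + ff β f y₁ + ff β f y₂ - ff β f y₃ - ff β f y₄ =
      uu β x * P x - uu β x' * P x' + (uu β y₁ * P y₁ + uu β y₂ * P y₂ - uu β y₃ * P y₃ - uu β y₄ * P y₄) := by
    rw [key' x xu, key' x' xu', key' y₁ uy₁, key' y₂ uy₂, key' y₃ uy₃, key' y₄ uy₄]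
    linear_combination -α * hs3 - β' * hs2
  rw [htot]
  have hR : |uu β y₁ * P y₁ + uu β y₂ * P y₂ - uu β y₃ * P y₃ - uu β y₄ * P y₄| ≤ 4 * (lam * H * (C₀ * ω ^ 2)) := by
    rw [hP]
    simp only
    rw [abs_le] at by₁ by₂ by₃ by₄ ⊢
    constructor
    · linarith [by₁.1, by₂.1, by₃.2, by₄.2]
    · linarith [by₁.2, by₂.2, by₃.1, by₄.1]
  have hη0 : 0 ≤ η := nonneg_of_mul_nonneg_left ((abs_nonneg _).trans hsl) hH
  -- the main term
  have hgD : (M : ℝ) * ω ^ 2 ≤ D * (D / (M : ℝ) ^ c') := by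
    have h5 : (M : ℝ) ^ (c' + 1) ≤ ((M : ℝ) ^ b) ^ 2 := by
      rw [← pow_mul, mul_comm b 2]
      exact pow_le_pow_right₀ hM1 hcb
    have hmc : 0 < (M : ℝ) ^ c' := pow_pos hM0 c'
    have h6 : (M : ℝ) / ((M : ℝ) ^ b) ^ 2 ≤ 1 / (M : ℝ) ^ c' := by
      rw [div_le_div_iff₀ (by positivity) hmc, one_mul, mul_comm, ← pow_succ]
      exact h5
    calc (M : ℝ) * ω ^ 2 = M / ((M : ℝ) ^ b) ^ 2 * D ^ 2 := by rw [hω, div_pow]; ring
      _ ≤ 1 / (M : ℝ) ^ c' * D ^ 2 := mul_le_mul_of_nonneg_right h6 (by positivity)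
      _ = _ := by ring
  have hηD : η * (M * D) ^ 2 ≤ ω ^ 2 := by
    have e1 : (1 / (M : ℝ)) ^ (2 * b + 2) * (M : ℝ) ^ 2 = 1 / ((M : ℝ) ^ b) ^ 2 := by
      rw [pow_add, one_div, inv_pow, inv_pow, ← pow_mul, mul_comm b 2]
      field_simp
    have e2 : η * (M : ℝ) ^ 2 ≤ 1 / ((M : ℝ) ^ b) ^ 2 := by
      rw [← e1]
      exact mul_le_mul_of_nonneg_right hη (by positivity)
    calc η * (M * D) ^ 2 = (η * (M : ℝ) ^ 2) * D ^ 2 := by ring
      _ ≤ (1 / ((M : ℝ) ^ b) ^ 2) * D ^ 2 := mul_le_mul_of_nonneg_right e2 (by positivity)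
      _ = ω ^ 2 := by rw [hω, div_pow]; ring
  have hlo := hlow (tt β x) (tt β x') D xt xt' hD0.le p1 p2 p5
  have hp : c * (M * ω ^ 2) ≤ |P x - P x'| := by
    have h5 : c * D * |tt β x - tt β x'| ≤ |P x - P x'| := by rw [hP]; exact hlo
    refine le_trans ?_ h5
    calc c * (M * ω ^ 2) ≤ c * (D * (D / (M : ℝ) ^ c')) := mul_le_mul_of_nonneg_left hgD hc.le
      _ = c * D * (D / (M : ℝ) ^ c') := by ring
      _ ≤ _ := mul_le_mul_of_nonneg_left p4 (by positivity)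
  have hp' : |P x'| ≤ C₀ * (M * D) ^ 2 := by
    rw [hP]
    exact (hup _ xt').trans (mul_le_mul_of_nonneg_left (pow_le_pow_left₀ (abs_nonneg _) p3 2) hC0.le)
  have h5 : |uu β x - uu β x'| * |P x'| ≤ C₀ * (H * ω ^ 2) := by
    calc |uu β x - uu β x'| * |P x'| ≤ η * H * (C₀ * (M * D) ^ 2) := mul_le_mul hsl hp' (abs_nonneg _) (by positivity)
      _ = C₀ * H * (η * (M * D) ^ 2) := by ring
      _ ≤ C₀ * H * ω ^ 2 := mul_le_mul_of_nonneg_left hηD (by positivity)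
      _ = _ := by ring
  have h6 : (1 + C₀ * (1 + 4 * lam)) * (H * ω ^ 2) ≤ uu β x * |P x - P x'| := by
    have h7 : H / lam * (c * (M * ω ^ 2)) ≤ uu β x * |P x - P x'| := mul_le_mul xu1 hp (by positivity) xu.le
    refine le_trans ?_ h7
    have h8 : lam * (1 + C₀ * (1 + 4 * lam)) * (H / lam * ω ^ 2) ≤ c * M * (H / lam * ω ^ 2) :=
      mul_le_mul_of_nonneg_right hMc (by positivity)
    calc (1 + C₀ * (1 + 4 * lam)) * (H * ω ^ 2) = lam * (1 + C₀ * (1 + 4 * lam)) * (H / lam * ω ^ 2) := by field_simp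
      _ ≤ _ := h8
      _ = _ := by ring
  have hXω : 1 / X ≤ H * ω ^ 2 := by
    refine hX.trans (le_of_eq ?_)
    rw [hω, hD, pow_add, pow_one]
    congr 2
    field_simp
  obtain ⟨R, hRd⟩ : ∃ R, R = uu β y₁ * P y₁ + uu β y₂ * P y₂ - uu β y₃ * P y₃ - uu β y₄ * P y₄ := ⟨_, rfl⟩
  rw [← hRd] at hR ⊢
  have e : uu β x * P x - uu β x' * P x' + R = uu β x * (P x - P x') + ((uu β x - uu β x') * P x' + R) := by ring
  rw [e]
  have h7 := abs_sub_abs_le_abs_sub (uu β x * (P x - P x')) (-((uu β x - uu β x') * P x' + R))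
  rw [sub_neg_eq_add, abs_neg, abs_mul, abs_of_pos xu] at h7
  have h8 := abs_add_le ((uu β x - uu β x') * P x') R
  rw [abs_mul] at h8
  have h9 : (1 + C₀ * (1 + 4 * lam)) * (H * ω ^ 2) = H * ω ^ 2 + C₀ * (H * ω ^ 2) + 4 * (lam * H * (C₀ * ω ^ 2)) := by ring
  linarith

private lemma shift_div (M l b j₀ j : ℕ) (hM : 1 ≤ M) :
    (M ^ (l + b) * j₀ + j) / M ^ b = M ^ l * j₀ + j / M ^ b := by
  have h : M ^ (l + b) * j₀ + j = M ^ b * (M ^ l * j₀) + j := by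
    rw [pow_add]
    ring
  rw [h, Nat.mul_add_div (pow_pos hM b)]

private lemma sep_shift {x i j : ℕ} (h : sep i j) : sep (x + i) (x + j) := by
  unfold Pool.Agent.Helper22.AC.sep at *
  omega

theorem gs_split_g {β : ℝ} {B : Finset (ℤ × ℤ)} (a : ℤ × ℤ → ℂ) (f : ℤ × ℤ → ℝ) {M : ℕ}
    (hM : 1 ≤ M) (N j : ℕ) (q : (ℝ × ℝ) × ℝ) :
    gs (arc β B N j) a f q = ∑ r ∈ Finset.range M, gs (arc β B (N * M) (M * j + r)) a f q := by
  have h := Pool.Agent.Helper78.CE.hs_split (β := β) (B := B) a f (fun _ => 0) hM N j (q.1, (q.2, 0))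
  unfold Pool.Agent.Helper78.CE.hs at h
  unfold gs
  simpa using h

theorem sys_6 {c C₀ lam ρ β H : ℝ} (hc : 0 < c) (hlam : 1 ≤ lam) (hH : 0 < H) (hρ : ρ ≤ 5) {M : ℕ} (hM : 1 ≤ M)
    (hMc : lam * (1 + C₀ * (1 + 4 * lam)) ≤ c * M) {N m j₀ : ℕ} (hN : 1 ≤ N) {X η : ℝ} {v f : ℝ → ℝ} (hv : IsWt X v)
    (a : ℤ × ℤ → ℂ) {B : Finset (ℤ × ℤ)} (hB : Rg β H lam ρ B) (hcrv : Crv6 c C₀ ρ f)
    (hslab : ∀ k ∈ B, ∀ k' ∈ B, |uu β k - uu β k'| ≤ η * H)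
    (hη : η ≤ (1 / (M : ℝ)) ^ (2 * m)) (hX : 1 / X ≤ H * (12 / (N * (M : ℝ) ^ m)) ^ 2) :
    Sys (mu v) M m (fun s j => gs (arc β B (N * M ^ s) (M ^ s * j₀ + j)) a (ff β f)) := by
  have hMpos : (0 : ℝ) < M := by exact_mod_cast hM
  have hM1' : (1 : ℝ) ≤ M := by exact_mod_cast hM
  have hN0 : (0 : ℝ) < N := by exact_mod_cast hN
  have hsub : ∀ (N i : ℕ) (k : ℤ × ℤ), k ∈ arc β B N i → k ∈ B := fun N i k hk =>
    (mem_arc'.1 hk).1
  have hηb : ∀ e : ℕ, e ≤ 2 * m → η ≤ (1 / (M : ℝ)) ^ e := by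
    intro e he
    refine hη.trans (pow_le_pow_of_le_one (by positivity) ?_ he)
    rw [div_le_one hMpos]
    exact hM1'
  have hXb : ∀ l b : ℕ, l + 1 + b ≤ m → 1 / X ≤ H * (12 / (((N * M ^ l : ℕ) : ℝ) * (M : ℝ) ^ (1 + b))) ^ 2 := by
    intro l b hlb
    refine hX.trans (mul_le_mul_of_nonneg_left ?_ hH.le)
    have h1 : ((N * M ^ l : ℕ) : ℝ) * (M : ℝ) ^ (1 + b) ≤ N * (M : ℝ) ^ m := by
      push_cast
      rw [mul_assoc, ← pow_add]
      exact mul_le_mul_of_nonneg_left (pow_le_pow_right₀ hM1' (by omega)) hN0.le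
    have h0 : 0 < ((N * M ^ l : ℕ) : ℝ) * (M : ℝ) ^ (1 + b) := by
      push_cast
      positivity
    have h2 : 12 / (N * (M : ℝ) ^ m) ≤ 12 / (((N * M ^ l : ℕ) : ℝ) * (M : ℝ) ^ (1 + b)) :=
      div_le_div_of_nonneg_left (by norm_num) h0 h1
    exact pow_le_pow_left₀ (by positivity) h2 2
  have hNl : ∀ l : ℕ, 1 ≤ N * M ^ l := fun l => Nat.one_le_iff_ne_zero.2 (Nat.mul_ne_zero (by omega) (pow_pos hM l).ne')
  have hlev : ∀ {l t J : ℕ} {y : ℤ × ℤ}, y ∈ arc β B (N * M ^ (l + 1 + t)) J → y ∈ arc β B (N * M ^ l * M ^ (1 + t)) J := by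
    intro l t J y hy
    have e1 : N * M ^ l * M ^ (1 + t) = N * M ^ (l + 1 + t) := by
      rw [mul_assoc, ← pow_add, add_assoc]
    rw [e1]
    exact hy
  refine ⟨fun s j => (gs_cont _ a _).measurable, fun s j => ⟨_, gs_norm_le _ a _⟩, ?_, ?_⟩
  · intro s _ j _ ω
    rw [gs_split_g a _ hM]
    refine Finset.sum_congr rfl fun r _ => ?_
    have e : M * (M ^ s * j₀ + j) + r = M ^ (s + 1) * j₀ + (M * j + r) := by
      rw [pow_succ]
      ring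
    have e2 : N * M ^ s * M = N * M ^ (s + 1) := by
      rw [mul_assoc, ← pow_succ]
    rw [e, e2]
  · intro l b c' hcb hlb hlc j hj i hi i' hi' hji hii hsep hs'
    refine orth_gs hv ?_
    intro x hx x' hx' y₁ hy₁ y₂ hy₂ y₃ hy₃ y₄ hy₄ hsum
    refine geo6 (N := N * M ^ l) (b := b) (c' := c') (i := M ^ (l + 1 + c') * j₀ + i)
      (i' := M ^ (l + 1 + c') * j₀ + i') (j := M ^ (l + 1 + b) * j₀ + j) (η := η) hc hlam hM hMc (hNl l) hcb hH hρ hB hcrv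
      (hηb _ (by omega)) (hXb l b hlb) ?_ ?_ ?_ ?_ (hlev hx) (hlev hx') (hlev hy₁) (hlev hy₂)
      (hlev hy₃) (hlev hy₄) ?_ hsum
    · have e1 := shift_div M l (b + 1) j₀ j hM
      have e2 := shift_div M l (c' + 1) j₀ i hM
      have e3 : l + (b + 1) = l + 1 + b := by ring
      have e4 : l + (c' + 1) = l + 1 + c' := by ring
      rw [e3] at e1
      rw [e4] at e2
      rw [e1, e2, hji]
    · rw [shift_div M (l + 1) c' j₀ i hM, shift_div M (l + 1) c' j₀ i' hM, hii]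
    · rw [shift_div M (l + 1) c' j₀ i hM, shift_div M (l + 1) b j₀ j hM]
      exact sep_shift hsep
    · exact sep_shift hs'
    · exact hslab x (hsub _ _ _ hx) x' (hsub _ _ _ hx')

/-- decoupling of a thin slab in `N₁` blocks of depth `m`, exponent 6 -/
theorem slab_6 {ε c C₀ lam : ℝ} (hε : 0 < ε) (hc : 0 < c) : ∃ M : ℕ, 2 ≤ M ∧ ∃ C : ℝ, 1 ≤ C ∧
    ∀ (m N₁ : ℕ) (β H ρ X η : ℝ) (f v : ℝ → ℝ) (a : ℤ × ℤ → ℂ) (B : Finset (ℤ × ℤ)), 1 ≤ lam → 0 < H → ρ ≤ 5 →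
      Rg β H lam ρ B → Crv6 c C₀ ρ f → IsWt X v → (∀ k ∈ B, ∀ k' ∈ B, |uu β k - uu β k'| ≤ η * H) →
      η ≤ (1 / (M : ℝ)) ^ (2 * m) → 1 / X ≤ H * (12 / (M : ℝ) ^ (N₁ * m)) ^ 2 →
      n6 (mu v) (gs B a (ff β f)) ≤ C ^ N₁ * (M : ℝ) ^ (ε * ((N₁ * m : ℕ) : ℝ)) *
        ∑ r ∈ Finset.range (M ^ (N₁ * m)), n6 (mu v) (gs (arc β B (M ^ (N₁ * m)) r) a (ff β f)) := by
  obtain ⟨M0, hM0, hdec⟩ := Pool.Agent.Helper22.AC.decoupling hε
  obtain ⟨K₁, hK₁⟩ : ∃ K : ℕ, lam * (1 + C₀ * (1 + 4 * lam)) / c ≤ K := exists_nat_ge _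
  obtain ⟨M, hMd⟩ : ∃ M : ℕ, M = max (max M0 2) K₁ := ⟨_, rfl⟩
  have hM2 : 2 ≤ M := by rw [hMd]; exact (le_max_right _ _).trans (le_max_left _ _)
  have hMM0 : M0 ≤ M := by rw [hMd]; exact (le_max_left _ _).trans (le_max_left _ _)
  have hMK1 : K₁ ≤ M := by rw [hMd]; exact le_max_right _ _
  have hMc : lam * (1 + C₀ * (1 + 4 * lam)) ≤ c * M := by
    rw [div_le_iff₀ hc] at hK₁
    have h1 : (K₁ : ℝ) ≤ M := by exact_mod_cast hMK1
    have h2 : (K₁ : ℝ) * c ≤ M * c := mul_le_mul_of_nonneg_right h1 hc.le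
    linarith
  obtain ⟨C, hC, hd⟩ := hdec M hMM0
  refine ⟨M, hM2, C, hC, ?_⟩
  intro m N₁ β H ρ X η f v a B hl hH hρ hB hcrv hv hslab hη hX
  have hM1 : 1 ≤ M := by omega
  have hMr : (1 : ℝ) ≤ M := by exact_mod_cast hM1
  have hMpos : (0 : ℝ) < M := by linarith
  have hprob := Pool.Agent.Helper22.AC.mu_prob hv
  have key : ∀ i : ℕ, i ≤ N₁ → n6 (mu v) (gs B a (ff β f)) ≤
      C ^ i * (M : ℝ) ^ (ε * ((i * m : ℕ) : ℝ)) *
        ∑ r ∈ Finset.range (M ^ (i * m)), n6 (mu v) (gs (arc β B (M ^ (i * m)) r) a (ff β f)) := by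
    intro i
    induction i with
    | zero =>
      intro _
      have h1 : arc β B 1 0 = B := by
        classical
        unfold arc
        rw [Finset.filter_eq_self]
        intro k hk
        have h6 := abs_le.1 (((hB k hk).2.2).trans hρ)
        rw [Nat.floor_eq_zero]
        push_cast
        linarith [h6.2]
      simp [h1]
    | succ i ih =>
      intro hi
      have h1 := ih (by omega)
      refine h1.trans ?_
      have hlev : i * m + m ≤ N₁ * m := by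
        have h2 : (i + 1) * m ≤ N₁ * m := Nat.mul_le_mul_right m hi
        rwa [Nat.succ_mul] at h2
      have hstep : ∀ s : ℕ, n6 (mu v) (gs (arc β B (M ^ (i * m)) s) a (ff β f)) ≤
          C * (M : ℝ) ^ (ε * (m : ℝ)) * ∑ r' ∈ Finset.range (M ^ m),
            n6 (mu v) (gs (arc β B (M ^ ((i + 1) * m)) (M ^ m * s + r')) a (ff β f)) := by
        intro s
        have hX' : 1 / X ≤ H * (12 / (((M ^ (i * m) : ℕ) : ℝ) * (M : ℝ) ^ m)) ^ 2 := by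
          refine hX.trans (mul_le_mul_of_nonneg_left ?_ hH.le)
          have h2 : ((M ^ (i * m) : ℕ) : ℝ) * (M : ℝ) ^ m ≤ (M : ℝ) ^ (N₁ * m) := by
            push_cast
            rw [← pow_add]
            exact pow_le_pow_right₀ hMr hlev
          have h3 : (0 : ℝ) < ((M ^ (i * m) : ℕ) : ℝ) * (M : ℝ) ^ m := by
            push_cast
            positivity
          have h4 : 12 / (M : ℝ) ^ (N₁ * m) ≤ 12 / (((M ^ (i * m) : ℕ) : ℝ) * (M : ℝ) ^ m) :=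
            div_le_div_of_nonneg_left (by norm_num) h3 h2
          exact pow_le_pow_left₀ (by positivity) h4 2
        have h2 := hd _ (mu v) m _ (sys_6 hc hl hH hρ hM1 hMc (N := M ^ (i * m)) (m := m) (j₀ := s)
          (Nat.one_le_iff_ne_zero.2 (pow_pos hM1 _).ne') hv a hB hcrv hslab hη hX')
        simp only [add_zero, pow_zero, one_mul, mul_one] at h2
        have e : M ^ (i * m) * M ^ m = M ^ ((i + 1) * m) := by
          rw [← pow_add, Nat.succ_mul]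
        rw [e] at h2
        exact h2
      calc C ^ i * (M : ℝ) ^ (ε * ((i * m : ℕ) : ℝ)) * ∑ r ∈ Finset.range (M ^ (i * m)),
              n6 (mu v) (gs (arc β B (M ^ (i * m)) r) a (ff β f))
          ≤ C ^ i * (M : ℝ) ^ (ε * ((i * m : ℕ) : ℝ)) * ∑ r ∈ Finset.range (M ^ (i * m)),
              (C * (M : ℝ) ^ (ε * (m : ℝ)) * ∑ r' ∈ Finset.range (M ^ m),
                n6 (mu v) (gs (arc β B (M ^ ((i + 1) * m)) (M ^ m * r + r')) a (ff β f))) := by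
            apply mul_le_mul_of_nonneg_left (Finset.sum_le_sum fun r _ => hstep r)
            positivity
        _ = C ^ (i + 1) * (M : ℝ) ^ (ε * (((i + 1) * m : ℕ) : ℝ)) *
              ∑ r ∈ Finset.range (M ^ (i * m)), ∑ r' ∈ Finset.range (M ^ m),
                n6 (mu v) (gs (arc β B (M ^ ((i + 1) * m)) (M ^ m * r + r')) a (ff β f)) := by
            rw [← Finset.mul_sum, pow_succ]
            have h3 : (M : ℝ) ^ (ε * (((i + 1) * m : ℕ) : ℝ)) =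
                (M : ℝ) ^ (ε * ((i * m : ℕ) : ℝ)) * (M : ℝ) ^ (ε * (m : ℝ)) := by
              rw [← Real.rpow_add hMpos]
              congr 1
              push_cast
              ring
            rw [h3]
            ring
        _ = _ := by
            congr 1
            have h4 : M ^ ((i + 1) * m) = M ^ (i * m) * M ^ m := by
              rw [← pow_add, Nat.succ_mul]
            rw [show Finset.range (M ^ ((i + 1) * m)) = Finset.range (M ^ (i * m) * M ^ m) by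
              rw [h4], Pool.Agent.Helper22.AC.sum_range_mul']
  exact key N₁ le_rfl

end Pool.Agent.Helper78.CG
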